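import Pool.Agent.Lib.FT.Defs

/-!
# C44: working definitions and elementary facts

`IsFTrace τ`: faithful tracial state.  `n2 τ x`: the 2-norm `τ (x* x)^{1/2}`.
-/

set_option autoImplicit false

open MeasureTheory

namespace Pool.Agent.FT

variable {D : Type} [CStarAlgebra D]

/-- `τ` is a faithful tracial state. -/
structure IsFTrace (τ : D →ₗ[ℂ] ℂ) : Prop where
  state : IsState τ
  trace : ∀ x y, τ (x * y) = τ (y * x)
  faithful : ∀ x, τ (star x * x) = 0 → x = 0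

/-- The 2-norm. -/
noncomputable def n2 (τ : D →ₗ[ℂ] ℂ) (x : D) : ℝ := Real.sqrt (τ (star x * x)).re

theorem n2_nonneg (τ : D →ₗ[ℂ] ℂ) (x : D) : 0 ≤ n2 τ x := Real.sqrt_nonneg _

theorem IsState.re_nonneg {τ : D →ₗ[ℂ] ℂ} (h : IsState τ) (x : D) : 0 ≤ (τ (star x * x)).re :=
  (h.2 x).1

theorem IsState.n2_sq {τ : D →ₗ[ℂ] ℂ} (h : IsState τ) (x : D) :
    n2 τ x ^ 2 = (τ (star x * x)).re := Real.sq_sqrt (h.re_nonneg x)

theorem IsState.n2_sq' {τ : D →ₗ[ℂ] ℂ} (h : IsState τ) (x : D) :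
    ((n2 τ x ^ 2 : ℝ) : ℂ) = τ (star x * x) := by
  rw [h.n2_sq]
  apply Complex.ext
  · simp
  · simp [(h.2 x).2]

/-- hermitian symmetry of the form `τ (x* y)` -/
theorem IsState.conj_form {τ : D →ₗ[ℂ] ℂ} (h : IsState τ) (x y : D) :
    (starRingEnd ℂ) (τ (star x * y)) = τ (star y * x) := by
  have e1 := (h.2 (x + y)).2
  have e2 := (h.2 (x + Complex.I • y)).2
  have hx := (h.2 x).2
  have hy := (h.2 y).2
  have hy' := (h.2 (Complex.I • y)).2
  simp only [star_add, star_smul, add_mul, mul_add, smul_mul_assoc, mul_smul_comm, map_add,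
    map_smul, smul_smul, Complex.star_def, Complex.conj_I, Complex.add_im, smul_eq_mul,
    Complex.mul_im, Complex.neg_im, Complex.neg_re, Complex.I_re, Complex.I_im] at e1 e2 hy'
  apply Complex.ext
  · simp only [Complex.conj_re]
    simp at e2 hy'
    linarith
  · simp only [Complex.conj_im]
    linarith

theorem IsState.map_star {τ : D →ₗ[ℂ] ℂ} (h : IsState τ) (x : D) :
    τ (star x) = (starRingEnd ℂ) (τ x) := by
  have := h.conj_form 1 x
  simpa using this.symm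

/-- Cauchy-Schwarz -/
theorem IsState.cs {τ : D →ₗ[ℂ] ℂ} (h : IsState τ) (x y : D) :
    ‖τ (star x * y)‖ ≤ n2 τ x * n2 τ y := by
  -- the semi-inner product `⟪x, y⟫ = τ (x* y)`
  have key : ‖τ (star x * y)‖ ^ 2 ≤ n2 τ x ^ 2 * n2 τ y ^ 2 := by
    set a : ℂ := τ (star x * y) with ha
    have hconj : τ (star y * x) = (starRingEnd ℂ) a := (h.conj_form x y).symm
    -- for all real t: 0 ≤ |x|² - 2 t |a|² + t² |a|² |y|²
    have hq : ∀ t : ℝ, 0 ≤ n2 τ x ^ 2 - 2 * t * ‖a‖ ^ 2 + t ^ 2 * ‖a‖ ^ 2 * n2 τ y ^ 2 := by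
      intro t
      have h0 := h.re_nonneg (x - ((t : ℂ) * (starRingEnd ℂ) a) • y)
      have hexp : τ (star (x - ((t : ℂ) * (starRingEnd ℂ) a) • y) *
          (x - ((t : ℂ) * (starRingEnd ℂ) a) • y))
          = τ (star x * x) - ((t : ℂ) * (starRingEnd ℂ) a) * a
            - ((t : ℂ) * a) * (starRingEnd ℂ) a
            + ((t : ℂ) * a) * ((t : ℂ) * (starRingEnd ℂ) a) * τ (star y * y) := by
        simp only [star_sub, star_smul, sub_mul, mul_sub, smul_mul_assoc, mul_smul_comm, map_sub,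
          map_smul, Complex.star_def, smul_eq_mul, map_mul, Complex.conj_ofReal,
          Complex.conj_conj, hconj, ← ha]
        ring
      rw [hexp] at h0
      have haa : a * (starRingEnd ℂ) a = ((‖a‖ ^ 2 : ℝ) : ℂ) := by
        rw [Complex.mul_conj, Complex.normSq_eq_norm_sq]
      have e1 : τ (star x * x) - ((t : ℂ) * (starRingEnd ℂ) a) * a
            - ((t : ℂ) * a) * (starRingEnd ℂ) a
            + ((t : ℂ) * a) * ((t : ℂ) * (starRingEnd ℂ) a) * τ (star y * y)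
          = ((n2 τ x ^ 2 - 2 * t * ‖a‖ ^ 2 + t ^ 2 * ‖a‖ ^ 2 * n2 τ y ^ 2 : ℝ) : ℂ) := by
        rw [← h.n2_sq' x, ← h.n2_sq' y]
        have : ((t : ℂ) * (starRingEnd ℂ) a) * a = (t : ℂ) * ((‖a‖ ^ 2 : ℝ) : ℂ) := by
          rw [← haa]; ring
        rw [this]
        have : ((t : ℂ) * a) * (starRingEnd ℂ) a = (t : ℂ) * ((‖a‖ ^ 2 : ℝ) : ℂ) := by
          rw [← haa]; ring
        rw [this]
        have : ((t : ℂ) * a) * ((t : ℂ) * (starRingEnd ℂ) a) = (t : ℂ) ^ 2 * ((‖a‖ ^ 2 : ℝ) : ℂ) := by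
          rw [← haa]; ring
        rw [this]
        push_cast
        ring
      rw [e1, Complex.ofReal_re] at h0
      exact h0
    rcases eq_or_ne ‖a‖ 0 with h0 | h0
    · rw [h0]; norm_num; positivity
    · have hapos : 0 < ‖a‖ ^ 2 := by positivity
      rcases eq_or_lt_of_le (sq_nonneg (n2 τ y)) with hy | hy
      · exfalso
        have := hq ((n2 τ x ^ 2 + 1) / (2 * ‖a‖ ^ 2))
        rw [← hy] at this
        have e : 2 * ((n2 τ x ^ 2 + 1) / (2 * ‖a‖ ^ 2)) * ‖a‖ ^ 2 = n2 τ x ^ 2 + 1 := by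
          field_simp
        rw [e] at this
        linarith
      · have := hq (1 / n2 τ y ^ 2)
        have e : n2 τ x ^ 2 - 2 * (1 / n2 τ y ^ 2) * ‖a‖ ^ 2 +
            (1 / n2 τ y ^ 2) ^ 2 * ‖a‖ ^ 2 * n2 τ y ^ 2
            = n2 τ x ^ 2 - ‖a‖ ^ 2 / n2 τ y ^ 2 := by
          field_simp
          ring
        rw [e] at this
        have h2 : ‖a‖ ^ 2 / n2 τ y ^ 2 ≤ n2 τ x ^ 2 := by linarith
        rwa [div_le_iff₀ hy] at h2
  have h1 : 0 ≤ n2 τ x * n2 τ y := mul_nonneg (n2_nonneg _ _) (n2_nonneg _ _)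
  have : ‖τ (star x * y)‖ ^ 2 ≤ (n2 τ x * n2 τ y) ^ 2 := by rw [mul_pow]; exact key
  exact (sq_le_sq₀ (norm_nonneg _) h1).mp this

theorem IsState.n2_one {τ : D →ₗ[ℂ] ℂ} (h : IsState τ) : n2 τ 1 = 1 := by
  simp [n2, h.1]

/-- `|τ x| ≤ |x|_2` -/
theorem IsState.norm_le_n2 {τ : D →ₗ[ℂ] ℂ} (h : IsState τ) (x : D) : ‖τ x‖ ≤ n2 τ x := by
  have := h.cs 1 x
  simpa [h.n2_one] using this

theorem IsState.n2_add_le {τ : D →ₗ[ℂ] ℂ} (h : IsState τ) (x y : D) :
    n2 τ (x + y) ≤ n2 τ x + n2 τ y := by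
  have hx := n2_nonneg τ x
  have hy := n2_nonneg τ y
  have : n2 τ (x + y) ^ 2 ≤ (n2 τ x + n2 τ y) ^ 2 := by
    rw [h.n2_sq]
    have e : (τ (star (x + y) * (x + y))).re
        = n2 τ x ^ 2 + (τ (star x * y)).re + (τ (star y * x)).re + n2 τ y ^ 2 := by
      rw [h.n2_sq, h.n2_sq]
      simp only [star_add, add_mul, mul_add, map_add, Complex.add_re]
      ring
    rw [e]
    have h1 : (τ (star x * y)).re ≤ n2 τ x * n2 τ y :=
      (Complex.re_le_norm _).trans (h.cs x y)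
    have h2 : (τ (star y * x)).re ≤ n2 τ x * n2 τ y := by
      refine (Complex.re_le_norm _).trans ((h.cs y x).trans (le_of_eq (mul_comm _ _)))
    nlinarith
  exact (sq_le_sq₀ (n2_nonneg _ _) (add_nonneg hx hy)).mp this

theorem IsState.n2_smul {τ : D →ₗ[ℂ] ℂ} (h : IsState τ) (c : ℂ) (x : D) :
    n2 τ (c • x) = ‖c‖ * n2 τ x := by
  have : n2 τ (c • x) ^ 2 = (‖c‖ * n2 τ x) ^ 2 := by
    rw [h.n2_sq, mul_pow]
    have e : τ (star (c • x) * (c • x)) = ((‖c‖ ^ 2 * n2 τ x ^ 2 : ℝ) : ℂ) := by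
      rw [star_smul, smul_mul_assoc, mul_smul_comm, map_smul, map_smul, ← h.n2_sq' x]
      simp only [smul_eq_mul, Complex.star_def, ← mul_assoc]
      rw [mul_comm ((starRingEnd ℂ) c) c, Complex.mul_conj, Complex.normSq_eq_norm_sq]
      push_cast
      ring
    rw [e, Complex.ofReal_re]
  exact (pow_left_inj₀ (n2_nonneg _ _) (mul_nonneg (norm_nonneg _) (n2_nonneg _ _))
    two_ne_zero).mp this

theorem IsState.n2_neg {τ : D →ₗ[ℂ] ℂ} (h : IsState τ) (x : D) : n2 τ (-x) = n2 τ x := by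
  have := h.n2_smul (-1) x
  simpa using this

theorem IsState.n2_sub_le {τ : D →ₗ[ℂ] ℂ} (h : IsState τ) (x y : D) :
    n2 τ (x - y) ≤ n2 τ x + n2 τ y := by
  rw [sub_eq_add_neg, ← h.n2_neg y]
  exact h.n2_add_le x (-y)

theorem n2_zero (τ : D →ₗ[ℂ] ℂ) : n2 τ 0 = 0 := by simp [n2]

theorem IsState.n2_sum_le {τ : D →ₗ[ℂ] ℂ} (h : IsState τ) {ι : Type*} (s : Finset ι) (f : ι → D) :
    n2 τ (∑ i ∈ s, f i) ≤ ∑ i ∈ s, n2 τ (f i) := by
  classical
  induction s using Finset.induction_on with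
  | empty => simp [n2_zero]
  | insert a s ha ih =>
    rw [Finset.sum_insert ha, Finset.sum_insert ha]
    exact (h.n2_add_le _ _).trans (by linarith)

section order

variable [PartialOrder D] [StarOrderedRing D]

/-- a state is nonnegative on nonnegative elements -/
theorem IsState.re_nonneg_of_nonneg {τ : D →ₗ[ℂ] ℂ} (h : IsState τ) {x : D} (hx : 0 ≤ x) :
    0 ≤ (τ x).re := by
  obtain ⟨y, rfl⟩ := CStarAlgebra.nonneg_iff_eq_star_mul_self.mp hx
  exact h.re_nonneg y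

theorem IsState.im_zero_of_nonneg {τ : D →ₗ[ℂ] ℂ} (h : IsState τ) {x : D} (hx : 0 ≤ x) :
    (τ x).im = 0 := by
  obtain ⟨y, rfl⟩ := CStarAlgebra.nonneg_iff_eq_star_mul_self.mp hx
  exact (h.2 y).2

theorem IsState.re_mono {τ : D →ₗ[ℂ] ℂ} (h : IsState τ) {x y : D} (hxy : x ≤ y) :
    (τ x).re ≤ (τ y).re := by
  have := h.re_nonneg_of_nonneg (sub_nonneg.mpr hxy)
  rw [map_sub, Complex.sub_re] at this
  linarith

end order

/-- `|x y|_2 ≤ |x| |y|_2` -/
theorem IsState.n2_mul_le {τ : D →ₗ[ℂ] ℂ} (h : IsState τ) (x y : D) :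
    n2 τ (x * y) ≤ ‖x‖ * n2 τ y := by
  let _ : PartialOrder D := CStarAlgebra.spectralOrder D
  have _ : StarOrderedRing D := CStarAlgebra.spectralOrderedRing D
  have h0 : n2 τ (x * y) ^ 2 ≤ (‖x‖ * n2 τ y) ^ 2 := by
    rw [h.n2_sq, mul_pow, h.n2_sq]
    have h1 : star (x * y) * (x * y) ≤ ‖x‖ ^ 2 • (star y * y) := by
      have : star (x * y) * (x * y) = star y * (star x * x) * y := by
        rw [star_mul]; simp only [mul_assoc]
      rw [this]
      have h2 := CStarAlgebra.star_left_conjugate_le_norm_smul (a := y) (b := star x * x)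
        (IsSelfAdjoint.star_mul_self x)
      rw [CStarRing.norm_star_mul_self] at h2
      simpa [sq] using h2
    have h3 := h.re_mono h1
    have h4 : (τ (‖x‖ ^ 2 • (star y * y))).re = ‖x‖ ^ 2 * (τ (star y * y)).re := by
      have : (‖x‖ ^ 2 • (star y * y)) = ((‖x‖ ^ 2 : ℝ) : ℂ) • (star y * y) := by
        rw [Complex.coe_smul]
      rw [this, map_smul, smul_eq_mul, Complex.re_ofReal_mul]
    rw [h4] at h3
    exact h3
  exact (sq_le_sq₀ (n2_nonneg _ _) (mul_nonneg (norm_nonneg _) (n2_nonneg _ _))).mp h0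

theorem IsState.n2_le_norm {τ : D →ₗ[ℂ] ℂ} (h : IsState τ) (x : D) : n2 τ x ≤ ‖x‖ := by
  have := h.n2_mul_le x 1
  simpa [h.n2_one] using this

theorem IsState.norm_le {τ : D →ₗ[ℂ] ℂ} (h : IsState τ) (x : D) : ‖τ x‖ ≤ ‖x‖ :=
  (h.norm_le_n2 x).trans (h.n2_le_norm x)

theorem IsState.continuous {τ : D →ₗ[ℂ] ℂ} (h : IsState τ) : Continuous τ :=
  AddMonoidHomClass.continuous_of_bound τ 1 (fun x => by simpa using h.norm_le x)

theorem IsState.continuous_n2 {τ : D →ₗ[ℂ] ℂ} (h : IsState τ) : Continuous (n2 τ) := by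
  unfold n2
  have := h.continuous
  fun_prop

theorem IsFTrace.n2_star {τ : D →ₗ[ℂ] ℂ} (h : IsFTrace τ) (x : D) : n2 τ (star x) = n2 τ x := by
  unfold n2
  rw [star_star, h.trace]

/-- `|x y|_2 ≤ |x|_2 |y|` -/
theorem IsFTrace.n2_mul_le' {τ : D →ₗ[ℂ] ℂ} (h : IsFTrace τ) (x y : D) :
    n2 τ (x * y) ≤ n2 τ x * ‖y‖ := by
  rw [← h.n2_star (x * y), star_mul, ← h.n2_star x, mul_comm, ← norm_star y]
  exact h.state.n2_mul_le _ _

theorem IsFTrace.eq_zero_of_n2 {τ : D →ₗ[ℂ] ℂ} (h : IsFTrace τ) {x : D} (hx : n2 τ x = 0) :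
    x = 0 := by
  apply h.faithful
  rw [← h.state.n2_sq' x, hx]
  simp

/-- a trace is invariant under conjugation by unitaries -/
theorem IsFTrace.conj {τ : D →ₗ[ℂ] ℂ} (h : IsFTrace τ) {u : D} (hu : star u * u = 1) (x : D) :
    τ (u * x * star u) = τ x := by
  rw [h.trace, ← mul_assoc, hu, one_mul]

end Pool.Agent.FT
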