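import Mathlib

/-!
# C44 (MP_1cc182_an): definitions for the final statement

Reduced free products of C*-algebras with respect to states, in the standard internal description
(Voiculescu): a unital C*-algebra `D` with a state `φ` is the reduced free product of its unital
*-subalgebras `S i` (with the restricted states) when the `S i` are free with respect to `φ`, they
generate `D` as a C*-algebra, and the GNS representation of `φ` is faithful.
-/

set_option autoImplicit false

namespace Pool.Agent.FT

/-- `φ` is a state on the unital C*-algebra `A`. -/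
def IsState {A : Type*} [CStarAlgebra A] (φ : A →ₗ[ℂ] ℂ) : Prop :=
  φ 1 = 1 ∧ ∀ a : A, 0 ≤ (φ (star a * a)).re ∧ (φ (star a * a)).im = 0

/-- The family `S` of unital *-subalgebras is free with respect to `φ`: the value of `φ` on every
product `a₁ a₂ ⋯ aₙ`, `n ≥ 1`, with `aₖ ∈ S iₖ`, `φ aₖ = 0` and `iₖ ≠ iₖ₊₁`, is zero. -/
def IsFree {A : Type*} [CStarAlgebra A] (φ : A →ₗ[ℂ] ℂ) {I : Type*}
    (S : I → StarSubalgebra ℂ A) : Prop :=
  ∀ l : List (I × A), l ≠ [] → (l.map Prod.fst).IsChain (· ≠ ·) →
    (∀ p ∈ l, p.2 ∈ S p.1 ∧ φ p.2 = 0) → φ (l.map Prod.snd).prod = 0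

/-- `(A, φ)` is the reduced free product of its unital *-subalgebras `S i`, each of them with the
restriction of `φ`: the family is free, it generates `A` as a C*-algebra, and the GNS
representation of the state `φ` is faithful. -/
structure IsReducedFreeProduct {A : Type*} [CStarAlgebra A] (φ : A →ₗ[ℂ] ℂ) {I : Type*}
    (S : I → StarSubalgebra ℂ A) : Prop where
  state : IsState φ
  free : IsFree φ S
  generate : (⨆ i, S i).topologicalClosure = ⊤
  gns : ∀ x : A, (∀ y z : A, φ (y * x * z) = 0) → x = 0

end Pool.Agent.FT
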