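import Pool.Agent.Lib.FT.SpecF
import Pool.Agent.Lib.FT.A.ASM
import Pool.Agent.Lib.FT.A.CLO
import Pool.Agent.Lib.FT.A.CONJ
import Pool.Agent.Lib.FT.A.DEC
import Pool.Agent.Lib.FT.A.FT
import Pool.Agent.Lib.FT.A.G
import Pool.Agent.Lib.FT.A.GRP0
import Pool.Agent.Lib.FT.A.ISO
import Pool.Agent.Lib.FT.A.MIX
import Pool.Agent.Lib.FT.A.MOM
import Pool.Agent.Lib.FT.A.NL
import Pool.Agent.Lib.FT.A.ORT
import Pool.Agent.Lib.FT.A.PN
import Pool.Agent.Lib.FT.A.SYS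
import Pool.Agent.Lib.FT.A.TR
import Pool.Agent.Lib.FT.B.POW
import Pool.Agent.Lib.FT.B.Q
import Pool.Agent.Lib.FT.B.RES
import Pool.Agent.Lib.FT.B.SER
import Pool.Agent.Lib.FT.C.AL
import Pool.Agent.Lib.FT.C.CORE
import Pool.Agent.Lib.FT.C.CYC
import Pool.Agent.Lib.FT.C.GRM
import Pool.Agent.Lib.FT.C.GSL
import Pool.Agent.Lib.FT.C.INT
import Pool.Agent.Lib.FT.C.MT1
import Pool.Agent.Lib.FT.C.MT2
import Pool.Agent.Lib.FT.C.QX
import Pool.Agent.Lib.FT.C.RG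
import Pool.Agent.Lib.FT.C.SRS
import Pool.Agent.Lib.FT.D.COM
import Pool.Agent.Lib.FT.D.CTN
import Pool.Agent.Lib.FT.D.EXP2
import Pool.Agent.Lib.FT.D.FM
import Pool.Agent.Lib.FT.D.S1
import Pool.Agent.Lib.FT.D.S1C
import Pool.Agent.Lib.FT.D.V
import Pool.Agent.Lib.FT.E.AG
import Pool.Agent.Lib.FT.E.CELL
import Pool.Agent.Lib.FT.E.CFI
import Pool.Agent.Lib.FT.E.DIG
import Pool.Agent.Lib.FT.E.FR
import Pool.Agent.Lib.FT.E.GAM
import Pool.Agent.Lib.FT.E.GST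
import Pool.Agent.Lib.FT.E.HAAR
import Pool.Agent.Lib.FT.E.HAT
import Pool.Agent.Lib.FT.E.HOM
import Pool.Agent.Lib.FT.E.MASS
import Pool.Agent.Lib.FT.E.PATH
import Pool.Agent.Lib.FT.E.ST1
import Pool.Agent.Lib.FT.E.STAR
import Pool.Agent.Lib.FT.E.TP
import Pool.Agent.Lib.FT.E.TT
import Pool.Agent.Lib.FT.E.UNI
import Pool.Agent.Lib.FT.F.APX
import Pool.Agent.Lib.FT.F.DIR
import Pool.Agent.Lib.FT.F.GEN
import Pool.Agent.Lib.FT.F.ITR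
import Pool.Agent.Lib.FT.F.STP
import Pool.Agent.Lib.FT.F.SW
import Pool.Agent.Lib.FT.F.TAIL

/-!
# C44 (MP_1cc182_an): assembly of all modules
-/

set_option autoImplicit false

namespace Pool.Agent.FT

theorem fPN : S_PN := pPN pGRP0 pCLO
theorem fG : S_G := pG (pFT pNL pDEC pORT)
theorem fCONJ : S_CONJ := pCONJ pGRP0 pCLO pASM
theorem fSYS : S_SYS := pSYS pTR pASM
theorem fISO : S_ISO := pISO pNL
theorem fQ : S_Q := pQ pSER pPOW pRES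
theorem fCORE : S_CORE := pCORE pSRS pQX
theorem fRG : S_RG := pRG fG pMT2
theorem fGSL : S_GSL := pGSL pCYC fCORE pMT1 pMT2 (pAL fQ) (pGRM fG) (pINT fRG)
theorem fS1 : S_S1 := pS1 (pS1C pCOM pFM)
theorem fV : S_V := pV pEXP2
theorem fTP : S_TP := pTP pFR (pGST pFR) pCFI
theorem fTT : S_TT := pTT pFR pCFI
theorem fAG : S_AG := pAG fS1 fV fPN pMIX pHAAR pUNI pFR pCFI fTP fTT
theorem fPATH : S_PATH := pPATH pCFI pHOM (pST1 pCFI) pMASS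
theorem fSTAR : S_STAR := pSTAR fGSL pHAT (pCELL pDIG) pGAM pCTN fAG fPATH fPN pCFI
theorem fSTP : S_STP := pSTP (pAPX pSW) pTAIL fSTAR fCONJ pGEN pDIR
theorem fITR : S_ITR := pITR fSTP pSW

theorem main_goal (d : ℕ) : Goal d := goal_of fSYS fITR pMOM fISO d

end Pool.Agent.FT
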