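import Pool.Agent.Lib.FT.Defs

/-!
# C44 (MP_1cc182_an): the goal
-/

set_option autoImplicit false

open MeasureTheory

namespace Pool.Agent.FT

/-- The final statement: `(B, τ)` is the reduced free product of the copies `e k` of
`(ℂ ⊕ ℂ, (x, y) ↦ (x + y) / 2)`, `k = 0, 1, 2, …`, and `(D, φ)` is the reduced free product of the
copy `ι` of `C([0,1]^d)` with Lebesgue measure and the copy `κ` of `(B, τ)`. Then `D ≅ B`. -/
def Goal (d : ℕ) : Prop :=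
  ∀ (B : Type) [CStarAlgebra B] (D : Type) [CStarAlgebra D]
    (τ : B →ₗ[ℂ] ℂ) (e : ℕ → (ℂ × ℂ) →⋆ₐ[ℂ] B)
    (φ : D →ₗ[ℂ] ℂ) (ι : C(Fin d → unitInterval, ℂ) →⋆ₐ[ℂ] D) (κ : B →⋆ₐ[ℂ] D),
    IsReducedFreeProduct τ (fun k => (e k).range) →
    (∀ k x, τ (e k x) = (x.1 + x.2) / 2) →
    IsReducedFreeProduct φ (fun b : Bool => cond b ι.range κ.range) →
    (∀ f : C(Fin d → unitInterval, ℂ), φ (ι f) = ∫ x, f x) →
    (∀ b, φ (κ b) = τ b) →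
    Nonempty (D ≃⋆ₐ[ℂ] B)

end Pool.Agent.FT
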