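import Pool.Agent.Lib.FT.Base

/-!
# C44, block A: freeness, words, free transport

Modules: file `Pool/Agent/Lib/FT/A/Xxx.lean`, `import Pool.Agent.Lib.FT.SpecA`, in
`namespace Pool.Agent.FT`: `theorem pXxx (hyps : S_...) : S_Xxx := ...`; auxiliary lemmas `private`
or in `namespace Pool.Agent.FT.Xxx`.
-/

set_option autoImplicit false

open MeasureTheory

noncomputable section

namespace Pool.Agent.FT

section defs

variable {D : Type} [CStarAlgebra D]

/-- product of the letters -/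
def wprod {J : Type} (l : List (J × D)) : D := (l.map Prod.snd).prod

/-- words: letters `(none, a)` with `a ∈ P` centred, letters `(some j, w j)`, no two adjacent
letters of the same kind. The empty list is allowed. -/
def IsWord (τ : D →ₗ[ℂ] ℂ) (P : StarSubalgebra ℂ D) (w : ℕ → D) (l : List (Option ℕ × D)) : Prop :=
  (l.map Prod.fst).IsChain (· ≠ ·) ∧
    ∀ p ∈ l, (p.1 = none → p.2 ∈ P ∧ τ p.2 = 0) ∧ (∀ j, p.1 = some j → p.2 = w j)

/-- a closed *-subalgebra `P` and symmetries `w j` such that `P, {w 0}, {w 1}, …` are free -/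
structure SymSys (τ : D →ₗ[ℂ] ℂ) (P : StarSubalgebra ℂ D) (w : ℕ → D) : Prop where
  closed : IsClosed (P : Set D)
  sa : ∀ j, star (w j) = w j
  sq : ∀ j, w j * w j = 1
  free : ∀ l : List (Option ℕ × D), l ≠ [] → IsWord τ P w l → τ (wprod l) = 0

/-- the *-algebra generated by `P` and the `w j` -/
def WA (P : StarSubalgebra ℂ D) (w : ℕ → D) : StarSubalgebra ℂ D :=
  StarAlgebra.adjoin ℂ ((P : Set D) ∪ Set.range w)

/-- span of the words starting with some `w j` -/
def Ww (τ : D →ₗ[ℂ] ℂ) (P : StarSubalgebra ℂ D) (w : ℕ → D) : Submodule ℂ D :=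
  Submodule.span ℂ {x | ∃ (j : ℕ) (l : List (Option ℕ × D)),
    IsWord τ P w ((some j, w j) :: l) ∧ x = w j * wprod l}

/-- span of `1` and the words starting with a letter from `P` -/
def WP (τ : D →ₗ[ℂ] ℂ) (P : StarSubalgebra ℂ D) (w : ℕ → D) : Submodule ℂ D :=
  Submodule.span ℂ (insert 1 {x | ∃ (a : D) (l : List (Option ℕ × D)),
    IsWord τ P w ((none, a) :: l) ∧ x = a * wprod l})

/-- A system: a copy of `C([0,1]^d)` with Lebesgue measure and symmetries `v k` of trace `0`, free. -/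
structure Sys {d : ℕ} (τ : D →ₗ[ℂ] ℂ) (ι : C(Fin d → unitInterval, ℂ) →⋆ₐ[ℂ] D) (v : ℕ → D) :
    Prop where
  tr : IsFTrace τ
  leb : ∀ f, τ (ι f) = ∫ x, f x
  sa : ∀ k, star (v k) = v k
  sq : ∀ k, v k * v k = 1
  tz : ∀ k, τ (v k) = 0
  free : IsFree τ (fun o : Option ℕ => o.elim ι.range (fun k => StarAlgebra.adjoin ℂ {v k}))

/-- `C*(ι, v k (k < N))` -/
def PN {d : ℕ} (ι : C(Fin d → unitInterval, ℂ) →⋆ₐ[ℂ] D) (v : ℕ → D) (N : ℕ) :
    StarSubalgebra ℂ D :=
  (ι.range ⊔ StarAlgebra.adjoin ℂ {x | ∃ k, k < N ∧ x = v k}).topologicalClosure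

/-- `C*(ι, v k (M ≤ k))` -/
def GM {d : ℕ} (ι : C(Fin d → unitInterval, ℂ) →⋆ₐ[ℂ] D) (v : ℕ → D) (M : ℕ) :
    StarSubalgebra ℂ D :=
  (ι.range ⊔ StarAlgebra.adjoin ℂ {x | ∃ k, M ≤ k ∧ x = v k}).topologicalClosure

end defs

/-- (A1) Norm lemma (0.3).
PROOF. Let `E` be the closure of `W` (closed *-subalgebra).  By continuity of `τ`, `n2 τ`
(`IsState.continuous`, `continuous_n2`) the inequality holds for all `y z ∈ E`.  With `y = c * z`
(`c * z ∈ E`): `n2 (c z)^2 = ‖τ (star (c z) * c * z)‖ ≤ M n2 (c z) n2 z`, so `n2 (c z) ≤ M n2 z` for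
`z ∈ E`.  Put `h = star c * c - M^2`, self-adjoint in `E`, `q = h⁺ = cfc (fun t => max t 0) h`,
`z = cfc (fun t => √(max t 0)) h ∈ E` (E is closed: `cfc` of a self-adjoint element of `E` lies in
`StarAlgebra.elemental`, which is contained in `E`).  `star z * h * z = q * q` (functional calculus:
`√(max t 0) * t * √(max t 0) = (max t 0)^2`), and `re τ (star z * h * z) = n2 (c z)^2 - M^2 n2 z ^2 ≤ 0`,
so `τ (star q * q) = 0`, `q = 0` by faithfulness, so `h ≤ 0`, `‖c‖^2 = ‖star c * c‖ ≤ M^2`. -/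
def S_NL : Prop :=
  ∀ (D : Type) [CStarAlgebra D] (τ : D →ₗ[ℂ] ℂ), IsFTrace τ →
    ∀ (W : StarSubalgebra ℂ D) (c : D) (M : ℝ), 0 ≤ M → c ∈ W.topologicalClosure →
      (∀ y ∈ W, ∀ z ∈ W, ‖τ (star y * c * z)‖ ≤ M * n2 τ y * n2 τ z) → ‖c‖ ≤ M

/-- (A2) Decomposition.
PROOF. `M = WP ⊔ Ww`.  Claim: `P M ⊆ M` and `w j M ⊆ M`.  It suffices to check generators of `M`.
For `x ∈ P`: `x 1 = τ x • 1 + x°` with `x° = x - τ x • 1`, the one letter word `(none, x°)`;
`x (a wprod l) = τ (x a) • wprod l + (x a)° wprod l`, where `(none, (x a)°) :: l` is a word and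
`wprod l` is `1` or a product of a word starting with some `w j` (the list `l` cannot start with
`none`), hence in `M`; `x (w j wprod l) = τ x • (w j wprod l) + x° (w j wprod l)`.
For `w j`: `w j 1`, `w j (a wprod l)` are words; `w j (w i wprod l)` is a word for `i ≠ j` and
`wprod l` for `i = j` (`sq`), and `l` is empty or starts with `none` or with `some k`.
Hence `{x | ∀ m ∈ M, x m ∈ M}` is a subalgebra containing `P` and all `w j`; `WA P w` is the
algebra generated by `P` and the `w j` (the generating set is stable under `star`), and `1 ∈ M`. -/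
def S_DEC : Prop :=
  ∀ (D : Type) [CStarAlgebra D] (τ : D →ₗ[ℂ] ℂ) (P : StarSubalgebra ℂ D) (w : ℕ → D),
    IsFTrace τ → SymSys τ P w → ∀ y ∈ WA P w, ∃ e ∈ WP τ P w, ∃ f ∈ Ww τ P w, y = e + f

/-- (A3) Orthogonality relations (1.1), (1.2), (1.3).
PROOF. All statements are (sesqui)linear in `e, e', g, g'`: check generators
(`Submodule.span_induction`).  The adjoint of `wprod l` is `wprod` of the reversed list with starred
letters, again a word (`star a ∈ P`, `τ (star a) = conj (τ a) = 0`, `star (w j) = w j`).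
(1) `star e * g` is the product of a non-empty word: (reversed `e`, ending with a letter of `P`, or
empty for `e = 1`) followed by `w j ...`; so `τ = 0`.
(2) `x = τ x • 1 + x°`; `star g * x° * g'` is the product of the word (reversed `g`, ending with `w j`),
`(none, x°)`, (`g'`, starting with `w j'`).
(3) `w j * e` is a word.  (4) For `i ≠ j`: `star (w i e) (w j e') = star e * w i * w j * e'` is the
product of a non-empty word; for `i = j` use `w i * w i = 1`. -/
def S_ORT : Prop :=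
  ∀ (D : Type) [CStarAlgebra D] (τ : D →ₗ[ℂ] ℂ) (P : StarSubalgebra ℂ D) (w : ℕ → D),
    IsFTrace τ → SymSys τ P w →
    (∀ e ∈ WP τ P w, ∀ g ∈ Ww τ P w, τ (star e * g) = 0) ∧
    (∀ x ∈ P, ∀ g ∈ Ww τ P w, ∀ g' ∈ Ww τ P w, τ (star g * x * g') = τ x * τ (star g * g')) ∧
    (∀ (j : ℕ), ∀ e ∈ WP τ P w, w j * e ∈ Ww τ P w) ∧
    (∀ (i j : ℕ), ∀ e ∈ WP τ P w, ∀ e' ∈ WP τ P w,
      τ (star (w i * e) * (w j * e')) = if i = j then τ (star e * e') else 0)

/-- (A4) LEMMA FT (free transport). `n2 τ α = τ (α²)^{1/2}` for self-adjoint `α`.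
PROOF. Let `c` be the element on the left, `c ∈ (WA P w).topologicalClosure` (even in `WA P w`).
By (A1) with `W = WA P w`, `M = 3 ‖x‖ n2 τ α` it suffices to bound `τ (star y * c * z)`, `y, z ∈ WA`.
Decompose (A2) `α y = e_y + f_y`, `α z = e_z + f_z` (`e ∈ WP`, `f ∈ Ww`).
`n2 (f_y)^2 = re τ (star f_y * f_y) = re τ (star f_y * (α y))` (A3 (1)) `= re τ (star (α f_y) * y)
≤ n2 (α f_y) n2 y`, and `n2 (α f_y)^2 = re τ (star f_y * (α α) * f_y) = n2 α ^2 n2 (f_y)^2` (A3 (2));
so `n2 f_y ≤ n2 α * n2 y`, likewise `f_z`; `n2 e_y ≤ n2 (α y) ≤ n2 y` (orthogonality: `n2 (α y)^2 =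
n2 e_y ^2 + n2 f_y ^2`).  With `s = if i = j then 1 else 0`, `κ = s τ x`:
`star y * c * z = star (w i (α y)) * x * (w j (α z)) - κ • star (α y) * (α z)`.
Main part: `τ (star (w i e_y) * x * (w j e_z)) = τ x * τ (star (w i e_y) * (w j e_z))
= κ τ (star e_y * e_z)` (A3 (2), (3), (4)) and `τ (star (α y) * (α z)) = τ (star e_y * e_z) +
τ (star f_y * f_z)` (A3 (1) and its conjugate).  The remaining three terms
`τ (star (w i e_y) x (w j f_z))`, `τ (star (w i f_y) x (w j (α z)))`, `κ τ (star f_y * f_z)` are bounded by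
`‖x‖ n2 α n2 y n2 z` each (`‖w i‖ ≤ 1` since `star (w i) * w i = 1`; `n2 α ≤ 1`, `‖τ x‖ ≤ ‖x‖`). -/
def S_FT : Prop :=
  ∀ (D : Type) [CStarAlgebra D] (τ : D →ₗ[ℂ] ℂ) (P : StarSubalgebra ℂ D) (w : ℕ → D),
    IsFTrace τ → SymSys τ P w →
    ∀ α ∈ P, star α = α → ‖α‖ ≤ 1 → ∀ x ∈ P, ∀ i j : ℕ,
      ‖α * w i * x * w j * α - (if i = j then τ x else 0) • (α * α)‖ ≤ 3 * ‖x‖ * n2 τ α

/-- (A5) LEMMA G (bilinear form).
PROOF. The product of the two sums is `∑ l, ∑ l', star (b i l) * (α * w (κ i l) * (star (p l) * p' l') *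
w (κ j l') * α) * b' j l'`.  By (A4) the middle factor differs from `(if (i,l) = (j,l') then
τ (star (p l) * p' l) else 0) • (α * α)` by at most `3 M^2 n2 α` (`κ` is injective on pairs;
`‖star (p l) * p' l'‖ ≤ M^2`).  Sum over `L^2` pairs, `‖b‖, ‖b'‖ ≤ 1`. -/
def S_G : Prop :=
  ∀ (D : Type) [CStarAlgebra D] (τ : D →ₗ[ℂ] ℂ) (P : StarSubalgebra ℂ D) (w : ℕ → D),
    IsFTrace τ → SymSys τ P w →
    ∀ α ∈ P, star α = α → ‖α‖ ≤ 1 →
    ∀ (n L : ℕ) (M : ℝ) (p p' : Fin L → D) (b b' : Fin n → Fin L → D) (κ : Fin n → Fin L → ℕ),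
      (∀ l, p l ∈ P) → (∀ l, ‖p l‖ ≤ M) → (∀ l, p' l ∈ P) → (∀ l, ‖p' l‖ ≤ M) →
      (∀ i l, b i l ∈ P) → (∀ i l, ‖b i l‖ ≤ 1) → (∀ i l, b' i l ∈ P) → (∀ i l, ‖b' i l‖ ≤ 1) →
      (∀ i l i' l', κ i l = κ i' l' → i = i' ∧ l = l') →
      ∀ i j : Fin n,
        ‖star (∑ l, p l * w (κ i l) * α * b i l) * (∑ l, p' l * w (κ j l) * α * b' j l)
          - (if i = j then ∑ l, τ (star (p l) * p' l) • (star (b i l) * (α * α) * b' i l) else 0)‖
          ≤ 3 * (L : ℝ) ^ 2 * M ^ 2 * n2 τ α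

/-- (A6) MIXING (1.4), `g = w 0 * w 1`, `star g = w 1 * w 0`.
PROOF. Write `x = τ x • 1 + x°`, `y = τ y • 1 + y°` and expand.  `τ (x° g y° star g) = 0`,
`τ (x° g y° g) = 0`, `τ (g y° star g) = τ (y°) = 0` (trace), `τ (x° g star g) = τ x° = 0`, `τ (g star g) = 1`,
`τ (g g) = τ (w 0 w 1 w 0 w 1) = 0`, `τ (x° g g) = 0`, `τ (g y° g) = 0`: all are words
(`SymSys.free`), e.g. `x°, w 0, w 1, y°, w 1, w 0`. -/
def S_MIX : Prop :=
  ∀ (D : Type) [CStarAlgebra D] (τ : D →ₗ[ℂ] ℂ) (P : StarSubalgebra ℂ D) (w : ℕ → D),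
    IsFTrace τ → SymSys τ P w → ∀ x ∈ P, ∀ y ∈ P,
      τ (x * (w 0 * w 1) * y * star (w 0 * w 1)) = τ x * τ y ∧
      τ (x * (w 0 * w 1) * y * (w 0 * w 1)) = 0

/-- (A7) Grouping, algebraic form.  `J` a set of indices; the family consisting of the *-algebra
generated by the `S j`, `j ∈ J`, and the `S i`, `i ∉ J`, is free.
PROOF. Call a list over `I × D` valid if its indices form a chain for `≠` and all letters are centred
elements of `S i`.  (a) Let `N` be the span of the products of valid non-empty lists with all indices in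
`J`.  `ℂ 1 + N` is stable under left multiplication by every `S j`, `j ∈ J` (as in (A2)), contains `1`,
hence is the *-algebra `⨆ j ∈ J, S j` (each `S j` is stable under `star`).  `τ = 0` on `N`; so a centred
element of `⨆ j ∈ J, S j` lies in `N`.  (b) Let `l` be a valid list for the new family (indices
`Option {i // i ∉ J}`).  By induction on `l`: `wprod l` is in the span of the products of valid lists `m`
over `I` such that `m = []` only if `l = []`, and: if `l` starts with `none`, `m` starts with an index in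
`J`; if `l` starts with `some i`, `m` starts with `i`.  Induction step: a letter `some i` is put in front
(`i` differs from the first index of `m`); a letter `none` is a combination of products of valid lists
with indices in `J` (by (a)), which are put in front of `m`, whose first index is not in `J`.
(c) `τ` vanishes on products of valid non-empty lists. -/
def S_GRP0 : Prop :=
  ∀ (D : Type) [CStarAlgebra D] (τ : D →ₗ[ℂ] ℂ), IsFTrace τ →
    ∀ (I : Type) (S : I → StarSubalgebra ℂ D), IsFree τ S → ∀ J : Set I,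
      IsFree τ (fun o : Option {i // i ∉ J} => o.elim (⨆ j ∈ J, S j) (fun i => S i))

/-- (A8) Passing to closures in one member of a free family.
PROOF. Let `l` be a valid list for the family with `(S none).topologicalClosure`.  For every `ε > 0` there
is a list `l'` with the same indices, letters of `l` with index `some i` unchanged, letters with index
`none` replaced by centred elements of `S none`, such that `‖wprod l - wprod l'‖ ≤ ε`: induction on `l`,
approximating a letter `x` (centred, in the closure) by `x' - τ x' • 1`, `x' ∈ S none`.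
`‖τ (wprod l)‖ = ‖τ (wprod l - wprod l')‖ ≤ ε`. -/
def S_CLO : Prop :=
  ∀ (D : Type) [CStarAlgebra D] (τ : D →ₗ[ℂ] ℂ), IsFTrace τ →
    ∀ (K : Type) (Q : StarSubalgebra ℂ D) (S : K → StarSubalgebra ℂ D),
      IsFree τ (fun o : Option K => o.elim Q S) →
      IsFree τ (fun o : Option K => o.elim Q.topologicalClosure S)

/-- (A9) Assembly: if `Q ⊇ S j` (`j ∈ J`), the family `Q, S i (i ∉ J)` is free and the family `S j (j ∈ J)`
is free, then `S` is free.
PROOF. Let `l` be a non-empty valid list over `I`.  By induction on the length of `l` there is a valid list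
`m` for the family (`Q`, `S i (i ∉ J)`) with `wprod m = wprod l`, `m ≠ []`, and `m` starts with `none` iff
`l` starts with an index in `J`, with `some i` if `l` starts with `i ∉ J`: if the first index is
`∉ J`, put the letter in front of the list for the tail.  If it is in `J`, split
`l = r ++ l'` with `r` the longest initial segment with indices in `J` (`List.takeWhile`, `dropWhile`);
`wprod r ∈ Q` is centred because the family `S j (j ∈ J)` is free, `l'` is empty or starts outside `J`. -/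
def S_ASM : Prop :=
  ∀ (D : Type) [CStarAlgebra D] (τ : D →ₗ[ℂ] ℂ),
    ∀ (I : Type) (S : I → StarSubalgebra ℂ D) (J : Set I) (Q : StarSubalgebra ℂ D),
      (∀ j ∈ J, S j ≤ Q) →
      IsFree τ (fun o : Option {i // i ∉ J} => o.elim Q (fun i => S i)) →
      IsFree τ (fun j : J => S j) → IsFree τ S

/-- (A10) A reduced free product of algebras with tracial states has a faithful tracial state.
PROOF. (a) `φ (x y) = φ (y x)`: by linearity and density (`φ` is continuous: `IsState.continuous`) and since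
the algebra `⨆ i, S i` is generated by the `S i`, it suffices to show `φ (a y) = φ (y a)` for `a ∈ S i`
centred and `y` the product of a valid list (the span of `1` and the products of valid non-empty lists is
`⨆ i, S i`, as in (A7) (a)); (then `{x | ∀ y, φ (x y) = φ (y x)}` is a subalgebra containing all `S i`).
If `y = y₁ ⋯ yₙ`, `n ≥ 2` or (`n = 1` and `y₁` has index `≠ i`) then `φ (a y) = 0`: if `y₁` has index `≠ i`
the list `a :: y` is valid; if `y₁ ∈ S i` (so `n ≥ 2`) then `a y₁ = φ (a y₁) • 1 + (a y₁)°` and both terms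
vanish.  Symmetrically `φ (y a) = 0`.  If `n = 1`, `y₁ ∈ S i` use that `φ` is tracial on `S i`; `n = 0` is
trivial.  (b) Faithful: if `φ (star x * x) = 0` then for all `y z`, `φ (y * x * z) = φ (z * y * x)`, and by
Cauchy-Schwarz (`IsState.cs` with `star (z y)`) `|φ (z y x)| ≤ n2 (star (z y)) n2 x = 0`; so `x = 0` by
`gns`. -/
def S_TR : Prop :=
  ∀ (D : Type) [CStarAlgebra D] (φ : D →ₗ[ℂ] ℂ) (I : Type) (S : I → StarSubalgebra ℂ D),
    IsReducedFreeProduct φ S → (∀ i, ∀ a ∈ S i, ∀ b ∈ S i, φ (a * b) = φ (b * a)) → IsFTrace φ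

/-- (A11) From the data of the goal to a system.  `b k = e k (1, -1)`.
PROOF. `(e k).range` is commutative, so (A10) gives `IsFTrace τ`.  `b k` is self-adjoint with square `1` and
`τ (b k) = 0` (formula for `τ ∘ e k`), `(e k).range = StarAlgebra.adjoin ℂ {b k}` (every
`(x, y) = ((x+y)/2) • 1 + ((x-y)/2) • (1, -1)`).  So the family `adjoin {b k}` is free and
`(adjoin (range b)).topologicalClosure = ⊤`.  `φ` is tracial on `ι.range` (commutative) and on `κ.range`
(`φ ∘ κ = τ`), so `IsFTrace φ` by (A10).  Freeness of `ι.range, adjoin {κ (b k)}`: (A9) with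
`I = Option ℕ`, `J = {some k}`, `Q = κ.range`: the outer family is the given free family over `Bool`
(re-indexed by `Option {o // o ∉ J}`, whose only other element is `some none`), the inner one is the image of the
free family in `B` under the trace preserving `κ`.  Generation: `κ` is continuous, so `κ (range)` is contained
in the closure of `adjoin (range (κ ∘ b))`, and `ι.range ⊔ κ.range` is dense. -/
def S_SYS : Prop :=
  ∀ (d : ℕ) (B : Type) [CStarAlgebra B] (D : Type) [CStarAlgebra D]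
    (τ : B →ₗ[ℂ] ℂ) (e : ℕ → (ℂ × ℂ) →⋆ₐ[ℂ] B)
    (φ : D →ₗ[ℂ] ℂ) (ι : C(Fin d → unitInterval, ℂ) →⋆ₐ[ℂ] D) (κ : B →⋆ₐ[ℂ] D),
    IsReducedFreeProduct τ (fun k => (e k).range) →
    (∀ k x, τ (e k x) = (x.1 + x.2) / 2) →
    IsReducedFreeProduct φ (fun b : Bool => cond b ι.range κ.range) →
    (∀ f : C(Fin d → unitInterval, ℂ), φ (ι f) = ∫ x, f x) →
    (∀ b, φ (κ b) = τ b) →
    IsFTrace τ ∧
    (∃ b : ℕ → B, (∀ k, star (b k) = b k) ∧ (∀ k, b k * b k = 1) ∧ (∀ k, τ (b k) = 0) ∧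
      IsFree τ (fun k => StarAlgebra.adjoin ℂ {b k}) ∧
      (StarAlgebra.adjoin ℂ (Set.range b)).topologicalClosure = ⊤) ∧
    (∃ v : ℕ → D, Sys φ ι v ∧
      (ι.range ⊔ StarAlgebra.adjoin ℂ (Set.range v)).topologicalClosure = ⊤)

/-- (A12) The tail of a system is a symmetric system over the head.
PROOF. (A7), (A8) with `I = Option ℕ`, `J = {none} ∪ {some k | k < N}`: the closure of `⨆ j ∈ J, S j` is
`PN ι v N`; a word over `PN ι v N` and `w j = v (N + j)` is a valid list for the new family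
(`v (N+j) ∈ adjoin {v (N+j)}` is centred by `tz`; re-index `some j ↦ some ⟨some (N+j), _⟩`). -/
def S_PN : Prop :=
  ∀ (d : ℕ) (D : Type) [CStarAlgebra D] (τ : D →ₗ[ℂ] ℂ)
    (ι : C(Fin d → unitInterval, ℂ) →⋆ₐ[ℂ] D) (v : ℕ → D), Sys τ ι v →
    ∀ N : ℕ, SymSys τ (PN ι v N) (fun j => v (N + j))

/-- (A13) Conjugation of the tail by a unitary of the tail algebra.
PROOF. `ι' = (Ad w*) ∘ ι` is a unital *-homomorphism (`w` unitary); `leb`, `sa`, `sq`, `tz` from trace
invariance.  Freeness: (A9) with `I = Option ℕ`, `J = {none} ∪ {some k | M ≤ k}`, `Q = GM ι v M`.  The outer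
family `Q, adjoin {v k} (k < M)` is free by (A7), (A8) for the old family (`⨆ j ∈ J, S j` has closure `Q`).
The inner family is `w* S_j w`, `j ∈ J`, contained in `Q`; it is free because a product of letters
`w* a₁ w ⋯ w* aₙ w = w* (a₁ ⋯ aₙ) w` and `τ (w* x w) = τ x`, and the old family is free.
(`adjoin {w* v w} = w* (adjoin {v}) w`; it is enough that its elements are combinations of `1` and
`w* v w`.) -/
def S_CONJ : Prop :=
  ∀ (d : ℕ) (D : Type) [CStarAlgebra D] (τ : D →ₗ[ℂ] ℂ)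
    (ι : C(Fin d → unitInterval, ℂ) →⋆ₐ[ℂ] D) (v : ℕ → D), Sys τ ι v →
    ∀ (M : ℕ) (w : D), w ∈ GM ι v M → star w * w = 1 → w * star w = 1 →
      ∃ ι' : C(Fin d → unitInterval, ℂ) →⋆ₐ[ℂ] D, (∀ f, ι' f = star w * ι f * w) ∧
        Sys τ ι' (fun k => if k < M then v k else star w * v k * w)

/-- (A14) Two C*-algebras with faithful traces generated by self-adjoint sequences with the same moments are
isomorphic.
PROOF. In the C*-algebra `B × D` let `Γ₀ = StarAlgebra.adjoin ℂ {(b k, x k)}`, `Γ` its closure.  For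
`γ ∈ Γ₀`: `τ γ.1 = σ γ.2` (span of words; the generators are self-adjoint).  Hence for `γ, ζ ∈ Γ₀`:
`n2 τ (γ.1 ζ.1) = n2 σ (γ.2 ζ.2)` and `n2 τ ζ.1 = n2 σ ζ.2`.  So `‖γ.1‖ = ‖γ.2‖`: e.g. `‖γ.1‖ ≤ ‖γ.2‖` by
(A1) with `W = adjoin (range b)` (every element of `W` is `ζ.1` for some `ζ ∈ Γ₀`),
`|τ (star ζ.1 γ.1 ζ'.1)| ≤ n2 ζ.1 n2 (γ.1 ζ'.1) = n2 ζ.1 n2 (γ.2 ζ'.2) ≤ n2 ζ.1 ‖γ.2‖ n2 ζ'.1`.  So the
projections `Γ → B`, `Γ → D` are isometric *-homomorphisms with dense, closed range, hence *-isomorphisms;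
compose. -/
def S_ISO : Prop :=
  ∀ (B : Type) [CStarAlgebra B] (D : Type) [CStarAlgebra D] (τ : B →ₗ[ℂ] ℂ) (σ : D →ₗ[ℂ] ℂ)
    (b : ℕ → B) (x : ℕ → D), IsFTrace τ → IsFTrace σ →
    (∀ k, star (b k) = b k) → (∀ k, star (x k) = x k) →
    (StarAlgebra.adjoin ℂ (Set.range b)).topologicalClosure = ⊤ →
    (StarAlgebra.adjoin ℂ (Set.range x)).topologicalClosure = ⊤ →
    (∀ l : List ℕ, τ (l.map b).prod = σ (l.map x).prod) → Nonempty (D ≃⋆ₐ[ℂ] B)

/-- (A15) Free sequences of symmetries of trace zero have the same moments.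
PROOF. Strong induction on the length of `l`.  `l = []`: both sides are `1`.  If `l` is a chain for `≠` and
non-empty, both sides are `0` by freeness (letters `b k ∈ adjoin {b k}`, centred).  Otherwise
`l = l₁ ++ k :: k :: l₂` and both products do not change when `k, k` is removed (`b k * b k = 1`). -/
def S_MOM : Prop :=
  ∀ (B : Type) [CStarAlgebra B] (D : Type) [CStarAlgebra D] (τ : B →ₗ[ℂ] ℂ) (σ : D →ₗ[ℂ] ℂ)
    (b : ℕ → B) (x : ℕ → D), τ 1 = 1 → σ 1 = 1 →
    (∀ k, b k * b k = 1) → (∀ k, x k * x k = 1) → (∀ k, τ (b k) = 0) → (∀ k, σ (x k) = 0) →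
    IsFree τ (fun k => StarAlgebra.adjoin ℂ {b k}) →
    IsFree σ (fun k => StarAlgebra.adjoin ℂ {x k}) →
    ∀ l : List ℕ, τ (l.map b).prod = σ (l.map x).prod

end Pool.Agent.FT
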