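import Pool.Agent.Lib.FT.Base

/-!
# C44, block B: quasi-central elements of small trace (Lemma Q)

Modules: file `Pool/Agent/Lib/FT/B/Xxx.lean`, `import Pool.Agent.Lib.FT.SpecB`, in
`namespace Pool.Agent.FT`: `theorem pXxx (hyps : S_...) : S_Xxx := ...`.
Membership in a closed *-subalgebra `E`: real functional calculus of a self-adjoint element of `E` lies in
`E` (`StarAlgebra.elemental ℂ a ≤ E`, `cfc_mem_elemental` or the like), inverses as well.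
-/

set_option autoImplicit false

noncomputable section

namespace Pool.Agent.FT

/-- (B1) The geometric average.
PROOF. `Θ x = ∑ i, (u i x u i* + u i* x u i)`, a bounded linear map with `‖Θ x‖ ≤ 2 r ‖x‖`, positive, and
`re τ (Θ x) = 2 r re τ x` (trace).  `θ = 1 / (4 r + 1)`, `T = ∑' m, θ^m • Θ^m x₀` (norm convergent:
`‖θ^m Θ^m x₀‖ ≤ (2 r θ)^m ‖x₀‖ ≤ 2^{-m} ‖x₀‖`; all terms are `≥ 0` and in `E`, which is closed).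
`‖T‖ ≤ 2 ‖x₀‖`, `re τ T = ∑' (2 r θ)^m re τ x₀ ≤ 2 re τ x₀`, `x₀ ≤ T`, `T = x₀ + θ • Θ T`; so
`u i T u i* ≤ Θ T ≤ θ⁻¹ • T`, the same for `u i* T u i`. -/
def S_SER : Prop :=
  ∀ (D : Type) [CStarAlgebra D] [PartialOrder D] [StarOrderedRing D] (τ : D →ₗ[ℂ] ℂ), IsFTrace τ →
    ∀ (r : ℕ) (u : Fin r → D) (E : StarSubalgebra ℂ D) (x₀ : D), IsClosed (E : Set D) →
      (∀ i, u i ∈ E) → (∀ i, star (u i) * u i = 1) → (∀ i, u i * star (u i) = 1) → x₀ ∈ E → 0 ≤ x₀ →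
      ∃ T ∈ E, x₀ ≤ T ∧ ‖T‖ ≤ 2 * ‖x₀‖ ∧ (τ T).re ≤ 2 * (τ x₀).re ∧
        (∀ i, u i * T * star (u i) ≤ (4 * (r : ℝ) + 1) • T) ∧
        (∀ i, star (u i) * T * u i ≤ (4 * (r : ℝ) + 1) • T)

/-- (B2) Small powers almost commute.
PROOF. `p = 1 / 2^m`, `Y = T ^ p` (`CFC.rpow`).  (i) `‖Y‖ ≤ 1 + ‖T‖`.  (ii) `T ≤ (1 + ‖T‖) • Y` since
`t ≤ (1 + ‖T‖) t^p` for `0 ≤ t ≤ ‖T‖`.  (iii) If `u T u* ≤ c T` and `u* T u ≤ c T`, `u` unitary: conjugation is a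
*-automorphism, so `(u T u*)^p = u Y u*`; by operator monotonicity (`CFC.rpow_le_rpow` / `monotone_rpow`)
`u Y u* ≤ c^p Y`, `u* Y u ≤ c^p Y`, i.e. `Y ≤ c^p u Y u*`; hence `-(c^p - 1) Y ≤ u Y u* - Y ≤ (c^p - 1) Y`
(`Y (1/q) ≤ uYu*`, `1 - 1/q ≤ q - 1`) and `‖u Y u* - Y‖ ≤ (c^p - 1) ‖Y‖`.
(iv) `re τ (T^p) ≤ (re τ T)^p`: induction on `m`, `re τ (Z^{1/2}) ≤ (re τ Z)^{1/2}` by Cauchy-Schwarz
(`|τ x| ≤ n2 x` for `x = Z^{1/2}`), `T^{1/2^{m+1}} = (T^{1/2^m})^{1/2}`. -/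
def S_POW : Prop :=
  ∀ (D : Type) [CStarAlgebra D] [PartialOrder D] [StarOrderedRing D] (τ : D →ₗ[ℂ] ℂ), IsFTrace τ →
    ∀ (E : StarSubalgebra ℂ D) (T : D), IsClosed (E : Set D) → T ∈ E → 0 ≤ T → ∀ m : ℕ,
      ∃ Y ∈ E, 0 ≤ Y ∧ T ≤ (1 + ‖T‖) • Y ∧ ‖Y‖ ≤ 1 + ‖T‖ ∧
        (τ Y).re ≤ (τ T).re ^ ((1 : ℝ) / 2 ^ m) ∧
        ∀ (c : ℝ) (u : D), 1 ≤ c → star u * u = 1 → u * star u = 1 →
          u * T * star u ≤ c • T → star u * T * u ≤ c • T →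
          ‖u * Y * star u - Y‖ ≤ (c ^ ((1 : ℝ) / 2 ^ m) - 1) * ‖Y‖

/-- (B3) The resolvent cut-off.
PROOF. `α = 1 - μ (μ + Y)⁻¹ = cfc (fun t => t / (μ + t)) Y`.  `0 ≤ α ≤ 1`, `α ∈ E`.
`u α u* - α = μ ((μ+Y)⁻¹ - (μ + u Y u*)⁻¹) = μ (μ + u Y u*)⁻¹ (u Y u* - Y) (μ+Y)⁻¹` and both inverses have norm
`≤ 1/μ` (`Y, u Y u* ≥ 0`).  `α ≤ (1/μ) Y` gives the trace bound.  If `X = X*`, `X X ≤ C Y`:
`‖(1-α) X‖² = ‖(1-α) X X (1-α)‖ ≤ C ‖(1-α) Y (1-α)‖ ≤ C μ` since `(μ/(μ+t))² t ≤ μ`. -/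
def S_RES : Prop :=
  ∀ (D : Type) [CStarAlgebra D] [PartialOrder D] [StarOrderedRing D] (τ : D →ₗ[ℂ] ℂ), IsFTrace τ →
    ∀ (E : StarSubalgebra ℂ D) (Y : D) (μ : ℝ), IsClosed (E : Set D) → Y ∈ E → 0 ≤ Y → 0 < μ →
      ∃ α ∈ E, 0 ≤ α ∧ α ≤ 1 ∧ (τ α).re ≤ (τ Y).re / μ ∧
        (∀ u : D, star u * u = 1 → u * star u = 1 →
          ‖u * α * star u - α‖ ≤ ‖u * Y * star u - Y‖ / μ) ∧
        (∀ (C : ℝ) (X : D), 0 ≤ C → star X = X → X * X ≤ C • Y → ‖(1 - α) * X‖ ^ 2 ≤ C * μ)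

/-- (B4) LEMMA Q.
PROOF. `w i = z i + I √(1 - (z i)²)` is a unitary in `E` with `z i = (w i + (w i)*) / 2`.  `x₀ = ∑ k, X k * X k`
(`‖x₀‖ ≤ 9 s`, `re τ x₀ ≤ s δ²`).  (B1) for `w` gives `T` (`‖T‖ ≤ 18 s`, `re τ T ≤ 2 s δ²`); (B2) gives `Y`;
`X k X k ≤ x₀ ≤ T ≤ (1 + 18 s) Y`.  (B3) with `μ = ξ² / (1 + 18 s)`: `‖(1-α) X k‖² ≤ ξ²`.
`‖α w i - w i α‖ = ‖w i α (w i)* - α‖ ≤ (c^p - 1) (1 + 18 s) / μ`, `c = 4 r + 1`, `p = 1/2^m`: choose `m` with this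
`≤ ξ` (`c^p → 1`); the same for `(w i)*`, so `‖α z i - z i α‖ ≤ ξ`.  Finally `re τ α ≤ (2 s δ²)^p / μ ≤ ξ` for small
`δ` (depending on `r, s, ξ` only). -/
def S_Q : Prop :=
  ∀ (r s : ℕ) (ξ : ℝ), 0 < ξ → ∃ δ : ℝ, 0 < δ ∧
    ∀ (D : Type) [CStarAlgebra D] [PartialOrder D] [StarOrderedRing D] (τ : D →ₗ[ℂ] ℂ), IsFTrace τ →
      ∀ (E : StarSubalgebra ℂ D) (z : Fin r → D) (X : Fin s → D), IsClosed (E : Set D) →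
        (∀ i, z i ∈ E) → (∀ i, star (z i) = z i) → (∀ i, ‖z i‖ ≤ 1) →
        (∀ k, X k ∈ E) → (∀ k, star (X k) = X k) → (∀ k, ‖X k‖ ≤ 3) → (∀ k, n2 τ (X k) ≤ δ) →
        ∃ α ∈ E, 0 ≤ α ∧ α ≤ 1 ∧ (τ α).re ≤ ξ ∧
          (∀ i, ‖α * z i - z i * α‖ ≤ ξ) ∧ (∀ k, ‖(1 - α) * X k‖ ≤ ξ)

end Pool.Agent.FT
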