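import Pool.Agent.Lib.FT.SpecA
import Pool.Agent.Lib.FT.SpecB

/-!
# C44, block C: the shift lemma GSL

Modules: file `Pool/Agent/Lib/FT/C/Xxx.lean`, `import Pool.Agent.Lib.FT.SpecC`, in
`namespace Pool.Agent.FT`: `theorem pXxx (hyps : S_...) : S_Xxx := ...`.
Matrices: `CStarMatrix (Fin (n+1)) (Fin (n+1)) D` is a C*-algebra in Mathlib
(`Mathlib/Analysis/CStarAlgebra/CStarMatrix.lean`: `norm_entry_le_norm`, `mul_apply`, `star_apply`, ...).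
-/

set_option autoImplicit false

open MeasureTheory

noncomputable section

namespace Pool.Agent.FT

/-- the cube `[0,1]^d` -/
abbrev Cube (d : ℕ) : Type := Fin d → unitInterval

/-- a real function as a complex function -/
def toC {X : Type} [TopologicalSpace X] (f : C(X, ℝ)) : C(X, ℂ) := ⟨fun z => (f z : ℂ), by fun_prop⟩

/-- coordinate function -/
def cR {d : ℕ} (m : Fin d) : C(Cube d, ℝ) := ⟨fun z => (z m : ℝ), by fun_prop⟩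

/-- coordinate function, complex -/
def xc {d : ℕ} (m : Fin d) : C(Cube d, ℂ) := toC (cR m)

section mats

variable {D : Type} [CStarAlgebra D] {n : ℕ}

/-- diagonal matrix -/
def diagM (x : Fin (n + 1) → D) : CStarMatrix (Fin (n + 1)) (Fin (n + 1)) D :=
  CStarMatrix.ofMatrix (fun i j => if i = j then x i else 0)

/-- row matrix (row number `0`) -/
def rowM (s : Fin (n + 1) → D) : CStarMatrix (Fin (n + 1)) (Fin (n + 1)) D :=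
  CStarMatrix.ofMatrix (fun i j => if i = 0 then s j else 0)

/-- matrix with one entry in the corner `(0,0)` -/
def cornM (n : ℕ) (x : D) : CStarMatrix (Fin (n + 1)) (Fin (n + 1)) D :=
  CStarMatrix.ofMatrix (fun i j => if i = 0 ∧ j = 0 then x else 0)

/-- scalar matrix entries -/
def sclM (D : Type) [CStarAlgebra D] {n : ℕ} (κ : Fin (n + 1) → Fin (n + 1) → ℂ) :
    CStarMatrix (Fin (n + 1)) (Fin (n + 1)) D :=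
  CStarMatrix.ofMatrix (fun i j => κ i j • (1 : D))

/-- the cyclic permutation matrix: the content of place `j` goes to place `j + 1` (cyclically) -/
def cycM (D : Type) [CStarAlgebra D] (n : ℕ) : CStarMatrix (Fin (n + 1)) (Fin (n + 1)) D :=
  sclM D (fun i j => if i = j + 1 then 1 else 0)

/-- the series `∑ I^{m+1}/(m+1)! (K b)^m K` -/
def Qs (K b : D) : D :=
  ∑' m : ℕ, (Complex.I ^ (m + 1) / ((m + 1).factorial : ℂ)) • ((K * b) ^ m * K)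

end mats

/-- (C1) Logarithm of the cyclic matrix.
PROOF. Work first in `M = CStarMatrix (Fin (n+1)) (Fin (n+1)) ℂ`, `σ₀` the cyclic matrix, `star σ₀ * σ₀ = 1 =
σ₀ * star σ₀`, `σ₀ ^ (n+1) = 1`, so its spectrum is a finite set of numbers of modulus one.
`K₀ = cfc (fun z => (Complex.arg z : ℂ)) σ₀` (a function on a finite set is continuous): self-adjoint,
`‖K₀‖ ≤ π ≤ 4`, `exp (I K₀) = cfc (fun z => exp (I arg z)) σ₀ = cfc id σ₀ = σ₀`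
(`NormedSpace.exp` and `cfc`: `CFC.exp_eq_normedSpace_exp`, composition).  (Alternative: spectral projections
`p_k = (n+1)⁻¹ ∑ ω^{-km} σ₀^m` and `K₀ = ∑ θ_k p_k`.)  `κ = entries of K₀`.
The entrywise map `ℂ → D`, `c ↦ c • 1`, is a *-homomorphism of matrix algebras (`CStarMatrix.mapₙₐ`), hence
contractive (`NonUnitalStarAlgHom.norm_apply_le`), continuous, unital, and compatible with `exp`
(`NormedSpace.map_exp`, or partial sums). -/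
def S_CYC : Prop :=
  ∀ (n : ℕ) (D : Type) [CStarAlgebra D] [PartialOrder D] [StarOrderedRing D],
    ∃ κ : Fin (n + 1) → Fin (n + 1) → ℂ,
      star (sclM D κ) = sclM D κ ∧ ‖sclM D κ‖ ≤ 4 ∧
      NormedSpace.exp (Complex.I • sclM D κ) = cycM D n

/-- (C2) The series.
PROOF. `‖(K b)^m K‖ ≤ 16^m 4`, so the series converges absolutely, `C = ∑ 4·16^m/(m+1)!` bounds `‖Qs K b‖`.
`(S K S*)^{m+1} = S (K (S* S))^m K S*` (induction), hence `exp (I S K S*) = 1 + ∑_{m ≥ 0} (I S K S*)^{m+1}/(m+1)!`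
`= 1 + S (Qs K (S* S)) S*` (multiplication by `S`, `S*` is continuous).
Lipschitz: `‖(K b)^m - (K b')^m‖ ≤ m 16^{m-1} · 4 ‖b - b'‖` (telescoping), `∑ 4 · 4 m 16^{m-1}/(m+1)! < ∞`. -/
def S_SRS : Prop :=
  ∃ C : ℝ, 0 < C ∧ ∀ (A : Type) [CStarAlgebra A] (K : A), ‖K‖ ≤ 4 →
    (∀ b : A, ‖b‖ ≤ 4 → ‖Qs K b‖ ≤ C) ∧
    (∀ b b' : A, ‖b‖ ≤ 4 → ‖b'‖ ≤ 4 → ‖Qs K b - Qs K b'‖ ≤ C * ‖b - b'‖) ∧
    (∀ S : A, ‖S‖ ≤ 2 →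
      NormedSpace.exp (Complex.I • (S * K * star S)) = 1 + S * Qs K (star S * S) * star S)

/-- (C3) `Qs K a` next to elements on which `a` is almost `1`.
PROOF. `K a = a K`, so `(K a)^m K = K^{m+1} a^m`.  `1 - a^m = (1 + a + ⋯ + a^{m-1}) (1 - a)`,
`‖(1 - a^m) X‖ ≤ m ‖(1 - a) X‖`, and `exp (I K) - 1 = ∑ I^{m+1}/(m+1)! K^{m+1}`; so
`‖Qs K a * X - (exp (I K) - 1) * X‖ ≤ ∑ m 4^{m+1}/(m+1)! ‖(1-a) X‖`.  The second: `(K a)^m K = a^m K^{m+1}`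
on the right of `X'`.  The third: `K^{m+1} a^m Λ - Λ K^{m+1} a^m = K^{m+1} (a^m Λ - Λ a^m)`,
`‖a^m Λ - Λ a^m‖ ≤ m ‖a Λ - Λ a‖`. -/
def S_QX : Prop :=
  ∃ C : ℝ, 0 < C ∧ ∀ (A : Type) [CStarAlgebra A] (K a : A), ‖K‖ ≤ 4 → ‖a‖ ≤ 1 → K * a = a * K →
    (∀ X : A, ‖Qs K a * X - (NormedSpace.exp (Complex.I • K) - 1) * X‖ ≤ C * ‖(1 - a) * X‖) ∧
    (∀ X : A, ‖X * Qs K a - X * (NormedSpace.exp (Complex.I • K) - 1)‖ ≤ C * ‖X * (1 - a)‖) ∧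
    (∀ Λ : A, K * Λ = Λ * K → ‖Qs K a * Λ - Λ * Qs K a‖ ≤ C * ‖a * Λ - Λ * a‖)

/-- (C4) The abstract core of the shift lemma.
PROOF. `U = exp (I S K S*) = 1 + S Q~ S*`, `Q~ = Qs K (S* S)`, `Q = Qs K a`, `‖Q~ - Q‖ ≤ C e` (`‖S* S‖ ≤ 4`).
`U F₀ - Fₙ U = (F₀ - Fₙ) + S Q~ (S* F₀) - (Fₙ S) Q~ S*`; `S* F₀ = (F₀ S)* = Λ S* + O(e)`, `Fₙ S = S Λ' + O(e)`;
so `U F₀ - Fₙ U = (F₀ - Fₙ) + S (Q Λ - Λ' Q) S* + O(e)` (`‖Λ‖, ‖Λ'‖ ≤ 1`).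
`Q Λ - Λ' Q = (Q Λᵢ - Λᵢ Q) + (Q X - X' Q) + (Q Y - Y' Q)`; first and last are `O(e)` (C3);
`Q X - X' Q = (σ - 1) X - X' (σ - 1) + O(e) = (σ X - X' σ) - (X - X') + O(e)`, `σ = exp (I K)` commutes with
`Λᵢ` (`K` does), so `σ X - X' σ = (σ Λ - Λ' σ) - (σ Y - Y' σ) = O(e)` (`‖σ‖ ≤ 1`: `σ` is unitary since `K` is
self-adjoint; or `‖σ‖ ≤ exp 4`).  So `U F₀ - Fₙ U = (F₀ - Fₙ) - S (X - X') S* + O(e) = O(e)`. -/
def S_CORE : Prop :=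
  ∃ C : ℝ, 0 < C ∧ ∀ (A : Type) [CStarAlgebra A] (S K a F₀ Fₙ Λ Λ' Λᵢ X X' Y Y' : A) (e : ℝ),
    0 ≤ e → star K = K → ‖K‖ ≤ 4 → K * a = a * K → K * Λᵢ = Λᵢ * K → ‖a‖ ≤ 1 → ‖S‖ ≤ 2 →
    ‖star S * S - a‖ ≤ e → ‖a * Λᵢ - Λᵢ * a‖ ≤ e →
    Λ = Λᵢ + X + Y → Λ' = Λᵢ + X' + Y' → ‖Y‖ ≤ e → ‖Y'‖ ≤ e → ‖Λ‖ ≤ 1 → ‖Λ'‖ ≤ 1 →
    ‖(1 - a) * X‖ ≤ e → ‖X' * (1 - a)‖ ≤ e →
    ‖NormedSpace.exp (Complex.I • K) * Λ - Λ' * NormedSpace.exp (Complex.I • K)‖ ≤ e →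
    star Λ = Λ → star F₀ = F₀ → ‖F₀ * S - S * Λ‖ ≤ e → ‖Fₙ * S - S * Λ'‖ ≤ e →
    ‖(F₀ - Fₙ) - S * (X - X') * star S‖ ≤ e →
    ‖NormedSpace.exp (Complex.I • (S * K * star S)) * F₀ -
      Fₙ * NormedSpace.exp (Complex.I • (S * K * star S))‖ ≤ C * e

/-- (C5) Matrix identities.  PROOF. Entrywise. -/
def S_MT1 : Prop :=
  ∀ (D : Type) [CStarAlgebra D] (n : ℕ),
    (diagM (fun _ => 1) = (1 : CStarMatrix (Fin (n + 1)) (Fin (n + 1)) D)) ∧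
    (∀ x y : Fin (n + 1) → D, diagM x * diagM y = diagM (fun i => x i * y i)) ∧
    (∀ x : Fin (n + 1) → D, star (diagM x) = diagM (fun i => star (x i))) ∧
    (∀ x y : Fin (n + 1) → D, diagM x + diagM y = diagM (fun i => x i + y i)) ∧
    (∀ x y : Fin (n + 1) → D, diagM x - diagM y = diagM (fun i => x i - y i)) ∧
    (∀ s x : Fin (n + 1) → D, rowM s * diagM x = rowM (fun j => s j * x j)) ∧
    (∀ (x : D) (s : Fin (n + 1) → D), cornM n x * rowM s = rowM (fun j => x * s j)) ∧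
    (∀ s t : Fin (n + 1) → D, rowM s - rowM t = rowM (fun j => s j - t j)) ∧
    (∀ (s t : Fin (n + 1) → D) (i j : Fin (n + 1)),
      (star (rowM s) * rowM t) i j = star (s i) * t j) ∧
    (∀ (s t : Fin (n + 1) → D) (M : CStarMatrix (Fin (n + 1)) (Fin (n + 1)) D),
      rowM s * M * star (rowM t) = cornM n (∑ i, ∑ j, s i * M i j * star (t j))) ∧
    (∀ x y : D, cornM n x * cornM n y = cornM n (x * y)) ∧
    (∀ x y : D, cornM n x - cornM n y = cornM n (x - y)) ∧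
    (∀ x : D, star (cornM n x) = cornM n (star x)) ∧
    (∀ (κ : Fin (n + 1) → Fin (n + 1) → ℂ) (x : D),
      sclM D κ * diagM (fun _ => x) = diagM (fun _ => x) * sclM D κ) ∧
    (∀ x y : Fin (n + 1) → D, cycM D n * diagM x - diagM y * cycM D n =
      cycM D n * diagM (fun j => x j - y (j + 1)))

/-- (C6) Matrix norms.
PROOF. (1) `CStarMatrix.norm_entry_le_norm`; a matrix is the sum of its one-entry matrices, and a one-entry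
matrix `M` with entry `x` has `‖M‖² = ‖M* M‖`, `M* M` is diagonal.  (2) `x ↦ diagM x` is a unital
*-homomorphism from the C*-algebra `Fin (n+1) → D` (sup norm), so it is contractive.  (3) `x ↦ cornM n x` is
`diagM (Fin.cons x 0)`.  (4) `‖rowM s‖² = ‖star (rowM s) * rowM s‖`, entries `star (s i) * s j`: the diagonal part
has norm `≤ G₀` by (2), the sum of the norms of the off-diagonal entries is `≤ n² G₁` (entries with index `0`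
vanish).  (5) `rowM (Fin.cons t 0) = cornM n t`, triangle inequality.  (6) `(cornM k)^m = cornM (k^m)` for
`m ≥ 1` and continuity of `cornM` (linear, isometric): `exp (I • cornM k) - 1 = ∑_{m ≥ 1} = cornM (exp (I k) - 1)`.
(7) `star (cycM) * cycM = 1`. -/
def S_MT2 : Prop :=
  ∀ (D : Type) [CStarAlgebra D] [PartialOrder D] [StarOrderedRing D] (n : ℕ),
    (∀ M : CStarMatrix (Fin (n + 1)) (Fin (n + 1)) D, ‖M‖ ≤ ∑ i, ∑ j, ‖M i j‖) ∧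
    (∀ (x : Fin (n + 1) → D) (c : ℝ), (∀ i, ‖x i‖ ≤ c) → ‖diagM x‖ ≤ c) ∧
    (∀ x : D, ‖cornM n x‖ = ‖x‖) ∧
    (∀ (e : Fin n → D) (G₀ G₁ : ℝ), 0 ≤ G₀ → 0 ≤ G₁ → (∀ i, ‖e i‖ ^ 2 ≤ G₀) →
      (∀ i j, i ≠ j → ‖star (e i) * e j‖ ≤ G₁) →
      ‖rowM (Fin.cons (0 : D) e : Fin (n + 1) → D)‖ ^ 2 ≤ G₀ + (n : ℝ) ^ 2 * G₁) ∧
    (∀ (t : D) (e : Fin n → D), ‖rowM (Fin.cons t e : Fin (n + 1) → D)‖ ≤
      ‖t‖ + ‖rowM (Fin.cons (0 : D) e : Fin (n + 1) → D)‖) ∧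
    (∀ k : D, NormedSpace.exp (Complex.I • cornM n k) =
      1 + cornM n (NormedSpace.exp (Complex.I • k) - 1)) ∧
    ‖cycM D n‖ ≤ 1

/-- (C7) Row form of Lemma G.
PROOF. `e i = ∑ l, p l * w (κ i l) * α * b i l`.  By `S_G` (`p' = p`, `b' = b`): for `i ≠ j`
`‖star (e i) * e j‖ ≤ 3 L² M² n2 α`; `‖e i‖² = ‖star (e i) * e i‖ ≤ ‖∑ l, τ (p* p) • b* α² b‖ + 3 L² M² n2 α`
and `0 ≤ ∑ l, τ (star (p l) * p l) • (star (b i l) * (α * α) * b i l) ≤ A² • ∑ l, star (b i l) * b i l ≤ A² B²`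
(`τ (star (p l) * p l)` is real, between `0` and `A²`; `α * α ≤ 1`).  Then `S_MT2` (4). -/
def S_RG : Prop :=
  ∀ (D : Type) [CStarAlgebra D] [PartialOrder D] [StarOrderedRing D] (τ : D →ₗ[ℂ] ℂ)
    (P : StarSubalgebra ℂ D) (w : ℕ → D),
    IsFTrace τ → SymSys τ P w → ∀ α ∈ P, star α = α → ‖α‖ ≤ 1 →
    ∀ (n L : ℕ) (M A B : ℝ) (p : Fin L → D) (b : Fin n → Fin L → D) (κ : Fin n → Fin L → ℕ),
      (∀ l, p l ∈ P) → (∀ l, ‖p l‖ ≤ M) → (∀ i l, b i l ∈ P) → (∀ i l, ‖b i l‖ ≤ 1) →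
      (∀ i l i' l', κ i l = κ i' l' → i = i' ∧ l = l') →
      0 ≤ A → 0 ≤ B → (∀ l, n2 τ (p l) ≤ A) →
      (∀ i, ∑ l, star (b i l) * b i l ≤ (B ^ 2) • (1 : D)) →
      ‖rowM (Fin.cons (0 : D) (fun i => ∑ l, p l * w (κ i l) * α * b i l) : Fin (n + 1) → D)‖ ^ 2
        ≤ A ^ 2 * B ^ 2 + (1 + (n : ℝ) ^ 2) * (3 * (L : ℝ) ^ 2 * M ^ 2 * n2 τ α)

section gdata

variable {D : Type} [CStarAlgebra D]

/-- The data of the shift lemma. -/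
structure GData {d n L : ℕ} (τ : D →ₗ[ℂ] ℂ) (P : StarSubalgebra ℂ D)
    (φ : Fin (n + 1) → C(Cube d, ℂ) →⋆ₐ[ℂ] D) (h : Fin L → C(Cube d, ℝ)) (z : Fin L → Cube d)
    (Y X : Fin (n + 1) → Fin d → D) (ρ ε δ : ℝ) : Prop where
  mem : ∀ i f, φ i f ∈ P
  hnn : ∀ l p, 0 ≤ h l p
  hsq : ∀ p, ∑ l, (h l p) ^ 2 = 1
  hz : ∀ l m p, |(p m : ℝ) - (z l m : ℝ)| * h l p ≤ ε * h l p
  dec : ∀ i m, φ i (xc m) - φ (Fin.last n) (xc m) = Y i m + X i m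
  Yn : ∀ i m, ‖Y i m‖ ≤ ε
  Xmem : ∀ i m, X i m ∈ P
  Xsa : ∀ i m, star (X i m) = X i m
  X2 : ∀ i m, n2 τ (X i m) ≤ δ
  near : ∀ (i : Fin n) m, ‖φ i.castSucc (xc m) - φ i.succ (xc m)‖ ≤ ε
  mass : ∀ l, ρ ≤ (τ (φ (Fin.last n) (toC (h l) * toC (h l)))).re

/-- `s_{i+1} = ∑ l, ρ_l^{-1/2} φₙ(h_l) w_{il} α φ_{i+1}(h_l)` -/
def sv {d n L : ℕ} (τ : D →ₗ[ℂ] ℂ) (w : ℕ → D) (φ : Fin (n + 1) → C(Cube d, ℂ) →⋆ₐ[ℂ] D)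
    (h : Fin L → C(Cube d, ℝ)) (κ : Fin n → Fin L → ℕ) (α : D) (i : Fin n) : D :=
  ∑ l, (((Real.sqrt (τ (φ (Fin.last n) (toC (h l) * toC (h l)))).re)⁻¹ : ℝ) : ℂ) •
    φ (Fin.last n) (toC (h l)) * w (κ i l) * α * φ i.succ (toC (h l))

end gdata

/-- (C8) The choice of `α`.
PROOF. `S_Q` with `E = P`, `r = (n+1) d + (n+1) L` (all `φ i (xc m)`, `φ i (toC (h l))`, self-adjoint of norm
`≤ 1`: `0 ≤ h l ≤ 1` by `hsq`; *-homomorphisms are contractive), `s = (n+1) d` (all `X i m`;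
`‖X i m‖ ≤ ‖φ i (xc m) - φₙ (xc m)‖ + ‖Y i m‖ ≤ 3`), and `ξ' = min ξ (ξ²)`; `n2 α ² = re τ (α α) ≤ re τ α ≤ ξ²`
(`α * α ≤ α`).  Re-index by `Fintype.equivFin` or `finSumFinEquiv`, `finProdFinEquiv`. -/
def S_AL : Prop :=
  ∀ (d n L : ℕ) (ξ : ℝ), 0 < ξ → ∃ δ : ℝ, 0 < δ ∧
    ∀ (D : Type) [CStarAlgebra D] [PartialOrder D] [StarOrderedRing D] (τ : D →ₗ[ℂ] ℂ)
      (P : StarSubalgebra ℂ D) (φ : Fin (n + 1) → C(Cube d, ℂ) →⋆ₐ[ℂ] D)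
      (h : Fin L → C(Cube d, ℝ)) (z : Fin L → Cube d) (Y X : Fin (n + 1) → Fin d → D) (ρ ε : ℝ),
      IsFTrace τ → IsClosed (P : Set D) → ε ≤ 1 → GData τ P φ h z Y X ρ ε δ →
      ∃ α ∈ P, 0 ≤ α ∧ α ≤ 1 ∧ n2 τ α ≤ ξ ∧
        (∀ i m, ‖α * φ i (xc m) - φ i (xc m) * α‖ ≤ ξ) ∧
        (∀ i l, ‖α * φ i (toC (h l)) - φ i (toC (h l)) * α‖ ≤ ξ) ∧
        (∀ i m, ‖(1 - α) * X i m‖ ≤ ξ)

/-- (C9) Gram matrix of `α, s_1, …, s_n`.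
PROOF. `ρ_l = re τ (φₙ (h_l²)) ≥ ρ`.  `sv` has the form of `S_G` with `p l = ρ_l^{-1/2} φₙ(h_l)` (norm
`≤ M = ρ^{-1/2}`), `b i l = φ_{i+1}(h_l)`, and `τ (star (p l) * p l) = ρ_l⁻¹ τ (φₙ (h_l²)) = 1` (it is real, since
`φₙ (h_l²) = φₙ(h_l)* φₙ(h_l)`).  So `star (s i) * s j` is, up to `3 L² ρ⁻¹ n2 α ≤ 3 L² ρ⁻¹ ξ`, equal to
`δ_ij ∑ l, φ(h_l) α² φ(h_l)` and `‖φ(h_l) α² φ(h_l) - α² φ(h_l) φ(h_l)‖ ≤ 2 ξ`, `∑ l, φ(h_l) φ(h_l) = 1` (`hsq`).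
For `α * s j`: `S_G` with `p l = ρ_l^{-1/2} α φₙ(h_l)`: `‖α s_j‖² = ‖star (α s_j) * (α s_j)‖ ≤ 3 L² ρ⁻¹ ξ +
∑ l, ‖τ (star (p l) * p l)‖ ≤ 3 L² ρ⁻¹ ξ + L ρ⁻¹ ξ²` since `n2 (p l) ≤ ρ^{-1/2} n2 α`
(`IsFTrace.n2_mul_le'`), and `ξ² ≤ ξ`. -/
def S_GRM : Prop :=
  ∀ (d n L : ℕ) (ρ : ℝ), 0 < ρ → ∃ C : ℝ, 0 < C ∧
    ∀ (D : Type) [CStarAlgebra D] [PartialOrder D] [StarOrderedRing D] (τ : D →ₗ[ℂ] ℂ)
      (P : StarSubalgebra ℂ D) (w : ℕ → D) (φ : Fin (n + 1) → C(Cube d, ℂ) →⋆ₐ[ℂ] D)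
      (h : Fin L → C(Cube d, ℝ)) (z : Fin L → Cube d) (Y X : Fin (n + 1) → Fin d → D) (ε δ ξ : ℝ)
      (κ : Fin n → Fin L → ℕ) (α : D),
      IsFTrace τ → SymSys τ P w → GData τ P φ h z Y X ρ ε δ → ξ ≤ 1 →
      (∀ i l i' l', κ i l = κ i' l' → i = i' ∧ l = l') →
      α ∈ P → 0 ≤ α → α ≤ 1 → n2 τ α ≤ ξ →
      (∀ i l, ‖α * φ i (toC (h l)) - φ i (toC (h l)) * α‖ ≤ ξ) →
      (∀ i j : Fin n, ‖star (sv τ w φ h κ α i) * sv τ w φ h κ α j - (if i = j then α * α else 0)‖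
        ≤ C * ξ) ∧
      (∀ j : Fin n, ‖α * sv τ w φ h κ α j‖ ^ 2 ≤ C * ξ)

/-- (C10) Intertwining estimates.
PROOF. Let `g ∈ {φ 0 (xc m), φₙ (xc m)}`, `f = xc m`, `ρ_l` as in `sv`.  Since `f (z l)` is a real number,
`g * s_j - s_j * φ_{j+1}(f) = E1_j - E2_j`, `E1_j = ∑ l, ρ_l^{-1/2} (g - f(z l)) φₙ(h_l) w_{jl} α φ_{j+1}(h_l)`,
`E2_j = ∑ l, ρ_l^{-1/2} φₙ(h_l) w_{jl} α φ_{j+1}(h_l (f - f(z l)))`.
`E1` in `S_RG`: `‖p l‖ ≤ M = 2 ρ^{-1/2}`, `B = 1` (`∑ φ(h_l)² = 1`), `A = 3 ε`: for `g = φₙ(f)`,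
`n2 ((φₙ(f) - f(z l)) φₙ(h_l)) ≤ ε ρ_l^{1/2}` since `((f - f(z l)) h_l)² ≤ ε² h_l²` pointwise (`hz`), order and
positivity of `τ ∘ φₙ`; for `g = φ 0 (f) = φₙ(f) + Y + X` add `n2 (Y φₙ(h_l)) ≤ ε ρ_l^{1/2}` and
`n2 (X φₙ(h_l)) ≤ δ ≤ ε ρ^{1/2}`.
`E2` in `S_RG`: `‖p l‖ ≤ ρ^{-1/2}`, `A = 1` (`n2 (p l) = 1`), `B = ε`, `b j l = φ_{j+1}(h_l (f - f(z l)))`
(`|h_l (f - f(z l))| ≤ 1` and `∑ h_l² (f - f(z l))² ≤ ε²`).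
So both rows have norm `≤ 3 ε + √(C' ξ)`, `≤ ε + √(C' ξ)` (`√(a + b) ≤ √a + √b`), `C = 4 C'`. -/
def S_INT : Prop :=
  ∀ (d n L : ℕ) (ρ : ℝ), 0 < ρ → ∃ C : ℝ, 0 < C ∧
    ∀ (D : Type) [CStarAlgebra D] [PartialOrder D] [StarOrderedRing D] (τ : D →ₗ[ℂ] ℂ)
      (P : StarSubalgebra ℂ D) (w : ℕ → D) (φ : Fin (n + 1) → C(Cube d, ℂ) →⋆ₐ[ℂ] D)
      (h : Fin L → C(Cube d, ℝ)) (z : Fin L → Cube d) (Y X : Fin (n + 1) → Fin d → D) (ε δ ξ : ℝ)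
      (κ : Fin n → Fin L → ℕ) (α : D),
      IsFTrace τ → SymSys τ P w → GData τ P φ h z Y X ρ ε δ → 0 < ε → δ ≤ ε * Real.sqrt ρ →
      (∀ i l i' l', κ i l = κ i' l' → i = i' ∧ l = l') →
      α ∈ P → 0 ≤ α → α ≤ 1 → n2 τ α ≤ ξ →
      ∀ m : Fin d,
        ‖rowM (Fin.cons (0 : D) (fun j => φ 0 (xc m) * sv τ w φ h κ α j
          - sv τ w φ h κ α j * φ j.succ (xc m)) : Fin (n + 1) → D)‖ ≤ 4 * ε + Real.sqrt (C * ξ) ∧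
        ‖rowM (Fin.cons (0 : D) (fun j => φ (Fin.last n) (xc m) * sv τ w φ h κ α j
          - sv τ w φ h κ α j * φ j.succ (xc m)) : Fin (n + 1) → D)‖ ≤ 4 * ε + Real.sqrt (C * ξ)

/-- (C11) THE SHIFT LEMMA.
PROOF. `κ i l = i * L + l` (injective on pairs).  Choose `ξ` small (depending on `ε, n, L, d, ρ`), `δ` from `S_AL` and
`≤ ε √ρ` (`GData` is monotone in `δ`).  `α` from `S_AL`, `s = Fin.cons α (sv ...)`, `S = rowM s`, `K = sclM κ'`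
from `S_CYC`, `a = diagM (α α)`, `F₀ = cornM (φ 0 (xc m))`, `Fₙ = cornM (φₙ (xc m))`, `Λ = diagM (φ i (xc m))`,
`Λ' = diagM (Fin.cons (φₙ (xc m)) (φ (i+1) (xc m)))`, `Λᵢ = diagM (φₙ (xc m))`, `X = diagM (X i m)`,
`X' = diagM (Fin.cons 0 (X (i+1) m))`, the same for `Y, Y'`.  Hypotheses of `S_CORE` with `e = 5 ε`:
`‖star S * S - a‖ ≤ ∑ entries` (`S_MT1` (9), `S_MT2` (1), `S_GRM`; the entries `(0, j)`, `(j, 0)` have norm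
`≤ √(C ξ)`), `‖S‖² ≤ 1 + e ≤ 4` (assume `e` small: use `‖star S * S - a‖ ≤ 1` from small `ξ`),
`‖α α g - g α α‖ ≤ 2 ξ`, `‖(1 - α α) X‖ ≤ 2 ξ`, `σ Λ - Λ' σ = σ diagM (φ j (f) - Λ' (j+1))` with entries
`φ j (f) - φ (j+1) (f)` (`near`) and `0` for `j = n`; `F₀ S - S Λ`, `Fₙ S - S Λ'`: `S_INT` and the column `0`,
which is a commutator with `α`; `(F₀ - Fₙ) - S (X - X') S* = cornM (X₀ + Y₀ - α X₀ α)`.
`u = exp (I • k)`, `k = ∑ i, ∑ j, s i * κ' i j • star (s j)`, `cornM k = S K S*`, so `k* = k` and `u` is unitary;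
`exp (I • cornM k) = 1 + cornM (u - 1)`, so `cornM (u φ₀(f) - φₙ(f) u) = U F₀ - Fₙ U`.
`u` is in the closed *-algebra (`k` is; the exponential is a limit of polynomials).
`‖u g u* - g'‖ = ‖u g - g' u‖`. -/
def S_GSL : Prop :=
  ∃ C : ℝ, 0 < C ∧ ∀ (d n L : ℕ) (ρ ε : ℝ), 0 < ρ → 0 < ε → ε ≤ 1 → ∃ δ : ℝ, 0 < δ ∧
    ∀ (D : Type) [CStarAlgebra D] (τ : D →ₗ[ℂ] ℂ)
      (P : StarSubalgebra ℂ D) (w : ℕ → D) (φ : Fin (n + 1) → C(Cube d, ℂ) →⋆ₐ[ℂ] D)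
      (h : Fin L → C(Cube d, ℝ)) (z : Fin L → Cube d) (Y X : Fin (n + 1) → Fin d → D),
      IsFTrace τ → SymSys τ P w → GData τ P φ h z Y X ρ ε δ →
      ∃ u ∈ (WA P w).topologicalClosure, star u * u = 1 ∧ u * star u = 1 ∧
        ∀ m : Fin d, ‖u * φ 0 (xc m) * star u - φ (Fin.last n) (xc m)‖ ≤ C * ε

end Pool.Agent.FT
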