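import Pool.Agent.Lib.FT.Base

/-!
# C44, block D: alignment in 2-norm

Modules: file `Pool/Agent/Lib/FT/D/Xxx.lean`, `import Pool.Agent.Lib.FT.SpecD`, in
`namespace Pool.Agent.FT`: `theorem pXxx (hyps : S_...) : S_Xxx := ...`.
`cfc F A`: continuous functional calculus for `F : ℝ → ℝ`, `A` self-adjoint.  If `0 ≤ A ≤ 1` then
`spectrum ℝ A ⊆ [0,1]`.
-/

set_option autoImplicit false

open MeasureTheory

noncomputable section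

namespace Pool.Agent.FT

/-- (D1) Second order expansion.
PROOF. `‖exp (t K) - (1 + t K + t²/2 K²)‖ ≤ ∑_{m ≥ 3} t^m/m! ≤ t³` (`‖K‖ ≤ 1`, `0 ≤ t ≤ 1`; e.g. Mathlib
`NormedSpace.exp` series, or the real function bound), the same for `-K`.  Multiply out; all factors have norm
`≤ 3`; the terms of order `t³` and higher are `O(t³)`; `K² A + A K² - 2 K A K = [K, [K, A]]`. -/
def S_EXP2 : Prop :=
  ∃ C : ℝ, 0 < C ∧ ∀ (D : Type) [CStarAlgebra D] (K A : D) (t : ℝ), ‖K‖ ≤ 1 → ‖A‖ ≤ 1 →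
    0 ≤ t → t ≤ 1 →
    ‖NormedSpace.exp (t • K) * A * NormedSpace.exp (-(t • K)) -
      (A + t • (K * A - A * K) + (t ^ 2 / 2) • (K * (K * A - A * K) - (K * A - A * K) * K))‖
      ≤ C * t ^ 3

/-- (D2) LEMMA V: an almost maximal position.
PROOF. `s = sup {re τ (v T v* T') : N, v ∈ Q N unitary}` (bounded by `1`, contains `v = 1`).  Let `C` be the
constant of (D1), `t ∈ (0,1]` with `2 C t ≤ κ/2`, `2 C t² + 4 t ≤ κ²/2`, and `e > 0` with `2 e / t² ≤ κ/2`,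
`2 e / t ≤ κ²/2`.  Choose `N`, `v ∈ Q N` with `re τ (v T v* T') ≥ s - e`, `A = v T v*`.  For skew-adjoint
`K ∈ Q (N+2)`, `‖K‖ ≤ 1`: `exp (t K) v` is a unitary in `Q (N+2)` (closed), so by (D1)
`t re τ ([K,A] T') + t²/2 re τ ([K,[K,A]] T') ≤ e + C t³`, also for `-K`.
Add: `re τ ([K,[K,A]] T') ≤ 2 e/t² + 2 C t ≤ κ`, and `τ ([K,B] T') = - τ (B [K,T'])` for `B = [K,A]` (trace).
First bound: `K = -[A,T']/2` is skew-adjoint, `‖K‖ ≤ 1`, `K ∈ Q N ⊆ Q (N+2)`,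
`re τ ([K,A] T') = re τ (K [A,T']) = n2([A,T'])²/2`, `|re τ ([K,[K,A]] T')| ≤ 4`:
`n2([A,T'])² ≤ 2 e/t + 2 C t² + 4 t ≤ κ²`. -/
def S_V : Prop :=
  ∀ (D : Type) [CStarAlgebra D] (τ : D →ₗ[ℂ] ℂ), IsFTrace τ →
    ∀ (Q : ℕ → StarSubalgebra ℂ D), Monotone Q → (∀ N, IsClosed (Q N : Set D)) →
    ∀ (T T' : D), T ∈ Q 0 → T' ∈ Q 0 → star T = T → star T' = T' → ‖T‖ ≤ 1 → ‖T'‖ ≤ 1 →
    ∀ κ : ℝ, 0 < κ → ∃ N : ℕ, ∃ v ∈ Q N, star v * v = 1 ∧ v * star v = 1 ∧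
      n2 τ ((v * T * star v) * T' - T' * (v * T * star v)) ≤ κ ∧
      ∀ K ∈ Q (N + 2), star K = -K → ‖K‖ ≤ 1 →
        -(τ ((K * (v * T * star v) - (v * T * star v) * K) * (K * T' - T' * K))).re ≤ κ

/-- (D3) Functions of 2-norm almost commuting elements almost commute in 2-norm.
PROOF. Weierstrass: polynomials `p, q` with `|F - p|, |G - q| ≤ η` on `[0,1]`
(`exists_polynomial_near_of_continuousOn`); `‖cfc F A - aeval A p‖ ≤ η`.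
`n2 ([A^i, B^j]) ≤ i j n2 ([A, B])` (`‖A‖, ‖B‖ ≤ 1`, `IsState.n2_mul_le`, `IsFTrace.n2_mul_le'`), so
`n2 ([p(A), q(B)]) ≤ (∑ |p_i| i) (∑ |q_j| j) κ`. -/
def S_COM : Prop :=
  ∀ F G : ℝ → ℝ, Continuous F → Continuous G → ∀ ε : ℝ, 0 < ε → ∃ κ : ℝ, 0 < κ ∧
    ∀ (D : Type) [CStarAlgebra D] [PartialOrder D] [StarOrderedRing D] (τ : D →ₗ[ℂ] ℂ), IsFTrace τ →
      ∀ A B : D, 0 ≤ A → A ≤ 1 → 0 ≤ B → B ≤ 1 → n2 τ (A * B - B * A) ≤ κ →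
        n2 τ (cfc F A * cfc G B - cfc G B * cfc F A) ≤ ε

/-- (D4) 2-norm continuity and norm continuity of the functional calculus on `[0,1]`.
PROOF. Weierstrass and `n2 (A^i - B^i) ≤ i n2 (A - B)`, `‖A^i - B^i‖ ≤ i ‖A - B‖`. -/
def S_CTN : Prop :=
  ∀ F : ℝ → ℝ, Continuous F → ∀ ε : ℝ, 0 < ε → ∃ κ : ℝ, 0 < κ ∧
    ∀ (D : Type) [CStarAlgebra D] [PartialOrder D] [StarOrderedRing D] (τ : D →ₗ[ℂ] ℂ), IsFTrace τ →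
      ∀ A B : D, 0 ≤ A → A ≤ 1 → 0 ≤ B → B ≤ 1 →
        (n2 τ (A - B) ≤ κ → n2 τ (cfc F A - cfc F B) ≤ ε) ∧
        (‖A - B‖ ≤ κ → ‖cfc F A - cfc F B‖ ≤ ε)

/-- (D5) The quadratic form on mixing elements.
PROOF. `4 τ ([K,A][K,B]) = τ ([y,A][y,B]) - τ ([y,A][y*,B]) - τ ([y*,A][y,B]) + τ ([y*,A][y*,B])`.
Every term of `[y,A][y,B]` is `x₁ g x₂ g x₃`, trace `τ (x₃ x₁ g x₂ g) = 0`; the last term is similar (take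
conjugates: `τ (x g* y g*) = conj τ (g y* g x*)`, `IsState.map_star`).  With `τ (x g y g*) = τ x τ y`:
`τ (y A y* B) = τ (a* B a) τ (b A b*)`, `τ (y A B y*) = τ (a* a) τ (b A B b*)`,
`τ (A y y* B) = τ (a* B A a) τ (b b*)`, `τ (A y B y*) = τ (a* A a) τ (b B b*)`; and
`τ (y* A y B) = τ (A y B y*)`, `τ (y* A B y) = τ (A B y y*)`, `τ (A y* y B) = τ (y B A y*)`,
`τ (A y* B y) = τ (B y A y*)`. -/
def S_FM : Prop :=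
  ∀ (D : Type) [CStarAlgebra D] (τ : D →ₗ[ℂ] ℂ), IsFTrace τ →
    ∀ (P : StarSubalgebra ℂ D) (g : D),
      (∀ x ∈ P, ∀ y ∈ P, τ (x * g * y * star g) = τ x * τ y ∧ τ (x * g * y * g) = 0) →
      ∀ A ∈ P, ∀ B ∈ P, ∀ a ∈ P, ∀ b ∈ P, star A = A → star B = B →
      ∀ y K : D, y = a * g * b → K = (1 / 2 : ℂ) • (y - star y) →
      -4 * τ ((K * A - A * K) * (K * B - B * K)) =
        2 * (τ (star a * B * a) * τ (b * A * star b)) + 2 * (τ (star a * A * a) * τ (b * B * star b))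
        - τ (star a * a) * (τ (b * A * B * star b) + τ (b * B * A * star b))
        - τ (b * star b) * (τ (star a * B * A * a) + τ (star a * A * B * a))

/-- (D6) The threshold inequality.
PROOF. `A_c = A - c`, `B_c = B - c`; commutators with `K` do not change.  (D5) for `A_c, B_c`:
`-4 re τ ([K,A][K,B]) = T₁ + T₂ + T₃ + T₄`.
`T₁`: `τ (a* B_c a) = τ (Fm(A) Fp(B)² B_c Fm(A)) ≥ (c' - c) τ (a* a)` because `(x - c) Fp(x)² ≥ (c' - c) Fp(x)²`;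
`τ (b A_c b*) ≥ (c' - c) τ (b b*)`; so `T₁ ≥ 2 (c'-c)² τ (a* a) τ (b b*)`.
`T₂`: by (D3) `τ (a* A_c a) = τ (Fm(A) Fp(B) A_c Fp(B) Fm(A))` is within a small error (2-norm commutation of
`Fp(B)` with the functions `Fm(A)`, `A_c` of `A`; `|τ x| ≤ n2 x`) of `τ (Fp(B) (Fm² (· - c))(A) Fp(B)) ≤ 0`;
`τ (b B_c b*)` is close to `τ (Fp(A) (Fm² (· - c))(B) Fp(A)) ≤ 0`.  So `T₂ ≥ - small`.
`T₃`: `τ (b A_c B_c b*)` is close to `τ ((Fp² (· - c))(A) (Fm² (· - c))(B)) ≤ 0` (trace of a product of a positive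
and a negative element), same for the conjugate; `T₃ ≥ - small`.  `T₄` the same:
`τ (a* B_c A_c a)` is close to `τ ((Fp² (· - c))(B) (Fm² (· - c))(A)) ≤ 0`. -/
def S_S1C : Prop :=
  ∀ (c c' : ℝ) (Fm Fp : ℝ → ℝ), c < c' → Continuous Fm → Continuous Fp →
    (∀ x, 0 ≤ Fm x ∧ Fm x ≤ 1) → (∀ x, 0 ≤ Fp x ∧ Fp x ≤ 1) →
    (∀ x, c ≤ x → Fm x = 0) → (∀ x, x ≤ c' → Fp x = 0) →
    ∀ ε : ℝ, 0 < ε → ∃ κ : ℝ, 0 < κ ∧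
    ∀ (D : Type) [CStarAlgebra D] [PartialOrder D] [StarOrderedRing D] (τ : D →ₗ[ℂ] ℂ), IsFTrace τ →
      ∀ (P : StarSubalgebra ℂ D) (g : D), IsClosed (P : Set D) →
      (∀ x ∈ P, ∀ y ∈ P, τ (x * g * y * star g) = τ x * τ y ∧ τ (x * g * y * g) = 0) →
      ∀ A ∈ P, ∀ B ∈ P, 0 ≤ A → A ≤ 1 → 0 ≤ B → B ≤ 1 → n2 τ (A * B - B * A) ≤ κ →
      ∀ a b y K : D, a = cfc Fp B * cfc Fm A → b = cfc Fm B * cfc Fp A → y = a * g * b →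
        K = (1 / 2 : ℂ) • (y - star y) →
        (c' - c) ^ 2 * (τ (star a * a)).re * (τ (b * star b)).re
          ≤ -2 * (τ ((K * A - A * K) * (K * B - B * K))).re + ε

/-- (D7) LEMMA S1.
PROOF. `a, b, K` as in (D6); `‖a‖, ‖b‖, ‖y‖, ‖K‖ ≤ 1` (`‖g‖ ≤ 1`), so by (D6) and the hypothesis
`(c'-c)² τ(a* a) τ(b b*) ≤ 2 κ + ε'`.  `Fm Fp = 0`, `R = 1 - Fm - Fp ≥ 0`, `0 ≤ Fp - Fp² ≤ R`, `0 ≤ Fm - Fm² ≤ R`,
`re τ R(A), re τ R(B) ≤ η`.  For `X ≥ 0`, `0 ≤ Y ≤ 1`: `0 ≤ re τ (X Y) ≤ re τ X`.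
`τ (a* a) = τ (Fm(A)² Fp(B)²)`; with `p = Fp(A)`, `p' = Fp(B)`, `1 - p = Fm(A) + R(A)`:
`|re τ (a* a) - re τ ((1-p) p')| ≤ 3 η`, `|re τ (b b*) - re τ ((1-p') p)| ≤ 3 η`.  Put `q₁ = re τ ((1-p) p')`,
`q₂ = re τ ((1-p') p)`, in `[0,1]`, `|q₁ - q₂| = |re τ p' - re τ p| ≤ η`, `(c'-c)² q₁ q₂ ≤ 2 κ + ε' + 6 (c'-c)² η`;
so both are small, and `n2 (p - p')² = re τ (p² + p'² - p p' - p' p) ≤ q₁ + q₂`. -/
def S_S1 : Prop :=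
  ∀ (c c' : ℝ) (Fm Fp : ℝ → ℝ), c < c' → Continuous Fm → Continuous Fp →
    (∀ x, 0 ≤ Fm x ∧ Fm x ≤ 1) → (∀ x, 0 ≤ Fp x ∧ Fp x ≤ 1) →
    (∀ x, c ≤ x → Fm x = 0) → (∀ x, x ≤ c' → Fp x = 0) →
    ∀ ε : ℝ, 0 < ε → ∃ κ : ℝ, 0 < κ ∧
    ∀ (D : Type) [CStarAlgebra D] [PartialOrder D] [StarOrderedRing D] (τ : D →ₗ[ℂ] ℂ), IsFTrace τ →
      ∀ (P : StarSubalgebra ℂ D) (g : D), IsClosed (P : Set D) → ‖g‖ ≤ 1 →
      (∀ x ∈ P, ∀ y ∈ P, τ (x * g * y * star g) = τ x * τ y ∧ τ (x * g * y * g) = 0) →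
      ∀ A ∈ P, ∀ B ∈ P, 0 ≤ A → A ≤ 1 → 0 ≤ B → B ≤ 1 →
      n2 τ (A * B - B * A) ≤ κ →
      (∀ a ∈ P, ∀ b ∈ P, ‖a‖ ≤ 1 → ‖b‖ ≤ 1 → ∀ K : D,
        K = (1 / 2 : ℂ) • (a * g * b - star (a * g * b)) →
        -(τ ((K * A - A * K) * (K * B - B * K))).re ≤ κ) →
      1 - κ ≤ (τ (cfc Fm A + cfc Fp A)).re → 1 - κ ≤ (τ (cfc Fm B + cfc Fp B)).re →
      |(τ (cfc Fp A)).re - (τ (cfc Fp B)).re| ≤ κ →
      n2 τ (cfc Fp A - cfc Fp B) ≤ ε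

end Pool.Agent.FT
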