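import Pool.Agent.Lib.FT.SpecC
import Pool.Agent.Lib.FT.SpecD

/-!
# C44, block E: the main claim (STAR)

Modules: file `Pool/Agent/Lib/FT/E/Xxx.lean`, `import Pool.Agent.Lib.FT.SpecE`, in
`namespace Pool.Agent.FT`: `theorem pXxx (hyps : S_...) : S_Xxx := ...`.
-/

set_option autoImplicit false

open MeasureTheory

noncomputable section

namespace Pool.Agent.FT

/-- clamp to `[0,1]` -/
def ramp (x : ℝ) : ℝ := max 0 (min 1 x)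

/-- midpoints `t_j = (2j+1)/(2K)` -/
def tj (K j : ℕ) : ℝ := (2 * (j : ℝ) + 1) / (2 * (K : ℝ))

/-- threshold function between `t_r` and `t_{r+1}`: `0` for `x ≤ t_{r+1} - 1/(4K)`, `1` for `x ≥ t_{r+1}` -/
def Fp (K r : ℕ) (x : ℝ) : ℝ := ramp (4 * (K : ℝ) * (x - tj K (r + 1)) + 1)

/-- threshold function between `t_r` and `t_{r+1}`: `1` for `x ≤ t_r`, `0` for `x ≥ t_r + 1/(4K)` -/
def Fm (K r : ℕ) (x : ℝ) : ℝ := ramp (1 - 4 * (K : ℝ) * (x - tj K r))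

/-- the deviation of `x` from the step function -/
def psi (K : ℕ) (x : ℝ) : ℝ :=
  x - tj K 0 - ∑ r ∈ Finset.range (K - 1), (1 / (K : ℝ)) * Fp K r x

/-- step function with values `t_0, …, t_{K-1}` and jumps (of width `w`) at `b r` -/
def Gst (K : ℕ) (b : ℕ → ℝ) (w x : ℝ) : ℝ :=
  tj K 0 + ∑ r ∈ Finset.range (K - 1), (1 / (K : ℝ)) * ramp ((x - b r) / w)

/-- `h` is a step function on the cells, up to a small set where `θ = 1` -/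
structure CellData (d R : ℕ) (c : Fin (R ^ d) → Cube d) (h θ : C(Cube d, ℝ)) (η : ℝ) : Prop where
  h0 : ∀ p, 0 ≤ h p
  h1 : ∀ p, h p ≤ 1
  θ0 : ∀ p, 0 ≤ θ p
  θ1 : ∀ p, θ p ≤ 1
  int : ∫ p, θ p ≤ η
  good : ∀ p, θ p < 1 → ∃ j : Fin (R ^ d), h p = tj (R ^ d) j ∧
    ∀ m, |(p m : ℝ) - (c j m : ℝ)| ≤ 1 / (R : ℝ)

/-- (E1) Partition of unity (squares).
PROOF. The cube is compact: finitely many points `z l` such that the balls `{p | dist p (z l) < ε}` cover it.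
`g l p = max 0 (ε - dist p (z l))`, `g = ∑ g l > 0`, `h l = √(g l / g)`.  If `h l p ≠ 0` then
`|p m - z l m| ≤ dist p (z l) < ε`.  `h l (z l) > 0`, `h l` is continuous and the volume of the cube is positive on
non-empty open sets (check: open sets of `unitInterval` have positive volume, `Measure.pi` instance), so
`∫ (h l)² > 0`; `ρ` = a quarter of the minimum. -/
def S_HAT : Prop :=
  ∀ (d : ℕ) (ε : ℝ), 0 < ε → ∃ (L : ℕ) (h : Fin L → C(Cube d, ℝ)) (z : Fin L → Cube d) (ρ : ℝ),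
    0 < ρ ∧ (∀ l p, 0 ≤ h l p) ∧ (∀ p, ∑ l, (h l p) ^ 2 = 1) ∧
    (∀ l m p, |(p m : ℝ) - (z l m : ℝ)| * h l p ≤ ε * h l p) ∧
    (∀ l, 4 * ρ ≤ ∫ p, (h l p) ^ 2)

/-- (E2) Digit function in dimension one.
PROOF. `w = min (1/(4R)) (η/(3R))`, `Dg x = ∑ k = 1..R-1, ramp ((x - k/R)/w)`,
`β x = min 1 (∑ k = 1..R-1, trap ((x - k/R)/w))`, `trap y = max 0 (min 1 (min (y + 1) (2 - y)))` (`1` on `[0,1]`,
`0` outside `[-1,2]`); `∫ β ≤ (R-1) 3 w ≤ η`.  If `β x < 1` then `x ∉ [k/R, k/R + w]` for all `k = 1..R-1`; with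
`k₀` = the number of `k ∈ {1..R-1}` with `k/R < x`: `Dg x = k₀` and `k₀/R ≤ x ≤ (k₀+1)/R`. -/
def S_DIG : Prop :=
  ∀ (R : ℕ), 1 ≤ R → ∀ η : ℝ, 0 < η → ∃ Dg β : C(unitInterval, ℝ),
    (∀ x, 0 ≤ Dg x ∧ Dg x ≤ (R : ℝ) - 1) ∧ (∀ x, 0 ≤ β x ∧ β x ≤ 1) ∧ (∫ x, β x ≤ η) ∧
    (∀ x, β x < 1 → ∃ k : Fin R, Dg x = ((k : ℕ) : ℝ) ∧ |(x : ℝ) - ((k : ℕ) : ℝ) / (R : ℝ)| ≤ 1 / (R : ℝ))

/-- (E3) Cells.
PROOF. `c j = (k_m / R)_m`, `(k_m) = finFunctionFinEquiv.symm j`.  `Dg, β` from (E2) for `η / (d + 1)`,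
`h p = (2 ∑ m, R^m Dg (p m) + 1) / (2 R^d)`, `θ p = min 1 (∑ m, β (p m))`.  `∑ m < d, R^m (R - 1) = R^d - 1`
gives `0 ≤ h ≤ 1`.  `∫ β (p m) dp = ∫ β` (`measurePreserving_eval`, the volume of the cube is the product of
probability measures).  If `θ p < 1` then `β (p m) < 1` for all `m`; `j = finFunctionFinEquiv (k_m)`,
`j = ∑ k_m R^m`. -/
def S_CELL : Prop :=
  ∀ (d R : ℕ), 1 ≤ R → ∃ c : Fin (R ^ d) → Cube d, ∀ η : ℝ, 0 < η →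
    ∃ h θ : C(Cube d, ℝ), CellData d R c h θ η

/-- (E4) A curve through the points.
PROOF. `γ x m = projIcc 0 1 (∑ j, c j m * max 0 (1 - K |x - t_j|))`; at `x = t_i` the terms `j ≠ i` vanish since
`|t_i - t_j| ≥ 1/K`. -/
def S_GAM : Prop :=
  ∀ (d K : ℕ) (c : Fin K → Cube d), 1 ≤ K → ∃ γ : C(ℝ, Cube d), ∀ j : Fin K, γ (tj K j) = c j

/-- (E5) `v 0 * v 1` is a Haar unitary.
PROOF. `(v 0 * v 1)^n` is the product of the list `0,1,0,1,…` of length `2 n`, a chain for `≠`, letters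
centred; `Sys.free` with the indices `some 0`, `some 1`. -/
def S_HAAR : Prop :=
  ∀ (d : ℕ) (D : Type) [CStarAlgebra D] (τ : D →ₗ[ℂ] ℂ)
    (ι : C(Cube d, ℂ) →⋆ₐ[ℂ] D) (v : ℕ → D), Sys τ ι v →
    ∀ n : ℕ, 1 ≤ n → τ ((v 0 * v 1) ^ n) = 0

/-- (E6) An element with uniform distribution.
PROOF. `c = (U + U*)/2`, self-adjoint, `-1 ≤ c ≤ 1` (`‖c‖ ≤ 1`).  Chebyshev: `T_n(c) = (U^n + (U*)^n)/2`
(recurrence `T_{n+2} = 2 x T_{n+1} - T_n`; `Polynomial.Chebyshev.T`), so `τ (T_n(c)) = 0` for `n ≥ 1`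
(`τ ((U*)^n) = conj τ (U^n)`), and `∫₀¹ T_n (cos π x) dx = ∫₀¹ cos (n π x) dx = 0`.  The `T_n` span the
polynomials, so `τ (p(c)) = ∫₀¹ p (cos π x) dx` for polynomials, and by Weierstrass on `[-1,1]` for `cfc F c`,
`F` continuous.  `T₀ = cfc (fun y => arccos y / π) c`; `cfc F T₀ = cfc (F ∘ ..) c` (`cfc_comp`),
`arccos (cos π x) = π x`. -/
def S_UNI : Prop :=
  ∀ (D : Type) [CStarAlgebra D] [PartialOrder D] [StarOrderedRing D] (τ : D →ₗ[ℂ] ℂ), IsFTrace τ →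
    ∀ (E : StarSubalgebra ℂ D) (U : D), IsClosed (E : Set D) → U ∈ E → star U * U = 1 → U * star U = 1 →
      (∀ n : ℕ, 1 ≤ n → τ (U ^ n) = 0) →
      ∃ T₀ ∈ E, 0 ≤ T₀ ∧ T₀ ≤ 1 ∧
        ∀ F : ℝ → ℝ, Continuous F → τ (cfc F T₀) = ((∫ x in (0 : ℝ)..1, F x : ℝ) : ℂ)

/-- (E7) Threshold functions.  PROOF. Elementary real arithmetic; `t_{j+1} - t_j = 1/K`.
(`psi K (t_j) = t_j - t_0 - j/K = 0` because `Fp K r (t_j) = 1` if `r + 1 ≤ j` and `0` if `r + 1 > j`.) -/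
def S_FR : Prop :=
  ∀ K : ℕ, 1 ≤ K →
    Continuous ramp ∧ (∀ x, 0 ≤ ramp x ∧ ramp x ≤ 1) ∧
    (∀ r, Continuous (Fp K r)) ∧ (∀ r, Continuous (Fm K r)) ∧ Continuous (psi K) ∧
    (∀ r x, 0 ≤ Fp K r x ∧ Fp K r x ≤ 1) ∧ (∀ r x, 0 ≤ Fm K r x ∧ Fm K r x ≤ 1) ∧
    (∀ r x, x ≤ tj K (r + 1) - 1 / (4 * (K : ℝ)) → Fp K r x = 0) ∧
    (∀ r x, tj K (r + 1) ≤ x → Fp K r x = 1) ∧
    (∀ r x, x ≤ tj K r → Fm K r x = 1) ∧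
    (∀ r x, tj K r + 1 / (4 * (K : ℝ)) ≤ x → Fm K r x = 0) ∧
    (∀ r, tj K r + 1 / (4 * (K : ℝ)) < tj K (r + 1) - 1 / (4 * (K : ℝ))) ∧
    (∀ j, j < K → psi K (tj K j) = 0) ∧
    (∀ x, 0 ≤ x → x ≤ 1 → |psi K x| ≤ 2) ∧
    (∀ r j, j < K → Fm K r (tj K j) + Fp K r (tj K j) = 1) ∧
    (∀ r x, Fp K (r + 1) x ≤ Fp K r x) ∧
    (∀ j, j < K → 0 ≤ tj K j ∧ tj K j ≤ 1)

/-- (E8) The step function.
PROOF. Continuity, `t_0 ≤ G ≤ t_0 + (K-1)/K = t_{K-1}`.  For `x ≤ b r` the ramps with index `≥ r` vanish, so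
`G x ≤ t_r`; for `x ≥ b r + w` the ramps with index `≤ r` are `1`, so `G x ≥ t_{r+1}`.  Integrate:
`Fp K r ∘ G = 0` on `[0, b r]`, `= 1` on `[b r + w, 1]`; `Fm K r ∘ G = 1` on `[0, b r]`.
If `x` is in none of the intervals `(b r, b r + w)`, `r < K - 1`, then `G x = t_j` for some `j < K` and
`psi K (G x) = 0`; `|psi| ≤ 2`; the union of the intervals has measure `≤ K w`. -/
def S_GST : Prop :=
  ∀ K : ℕ, 1 ≤ K → ∀ (b : ℕ → ℝ) (w : ℝ), 0 < w → Monotone b → (∀ r, 0 ≤ b r ∧ b r ≤ 1) →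
    Continuous (Gst K b w) ∧ (∀ x, 0 ≤ Gst K b w x ∧ Gst K b w x ≤ 1) ∧
    (∀ r, r < K - 1 →
      1 - b r - w ≤ (∫ x in (0 : ℝ)..1, Fp K r (Gst K b w x)) ∧
      (∫ x in (0 : ℝ)..1, Fp K r (Gst K b w x)) ≤ 1 - b r ∧
      1 - w ≤ (∫ x in (0 : ℝ)..1, (Fm K r (Gst K b w x) + Fp K r (Gst K b w x)))) ∧
    (∫ x in (0 : ℝ)..1, (psi K (Gst K b w x)) ^ 2) ≤ 4 * (K : ℝ) * w

/-- (E9) Facts about the functional calculus.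
PROOF. (1) `StarAlgHom.map_cfc` for `ι` (continuous) and `cfc F (toC h) = toC (F ∘ h)` in `C(Cube d, ℂ)` (pointwise;
or uniqueness / polynomial approximation).  (2) conjugation by `u` is a *-automorphism, `map_cfc`.
(3) the functional calculus lies in `StarAlgebra.elemental ℂ T ≤ E`; (`cfc_mem_elemental` or polynomial
approximation).  (4) `toC h` is self-adjoint; positive if `0 ≤ h`; *-homomorphisms are positive and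
contractive.  (5) conjugation is positive, `u u* = 1`.  (6) `(2)` and `(1)`, trace, `leb`. -/
def S_CFI : Prop :=
  (∀ (d : ℕ) (D : Type) [CStarAlgebra D] (ι : C(Cube d, ℂ) →⋆ₐ[ℂ] D) (h : C(Cube d, ℝ)) (F : C(ℝ, ℝ)),
    cfc (fun x => F x) (ι (toC h)) = ι (toC (F.comp h))) ∧
  (∀ (D : Type) [CStarAlgebra D] (u T : D) (F : ℝ → ℝ), Continuous F → star u * u = 1 →
    u * star u = 1 → star T = T → cfc F (u * T * star u) = u * cfc F T * star u) ∧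
  (∀ (D : Type) [CStarAlgebra D] (E : StarSubalgebra ℂ D) (T : D) (F : ℝ → ℝ), Continuous F →
    IsClosed (E : Set D) → T ∈ E → star T = T → cfc F T ∈ E) ∧
  (∀ (d : ℕ) (D : Type) [CStarAlgebra D] [PartialOrder D] [StarOrderedRing D]
    (ι : C(Cube d, ℂ) →⋆ₐ[ℂ] D) (h : C(Cube d, ℝ)),
    star (ι (toC h)) = ι (toC h) ∧ ((∀ p, 0 ≤ h p) → 0 ≤ ι (toC h)) ∧
    ((∀ p, h p ≤ 1) → ι (toC h) ≤ 1) ∧ (∀ c : ℝ, (∀ p, |h p| ≤ c) → ‖ι (toC h)‖ ≤ c)) ∧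
  (∀ (D : Type) [CStarAlgebra D] [PartialOrder D] [StarOrderedRing D] (u T : D), star u * u = 1 →
    u * star u = 1 → 0 ≤ T → T ≤ 1 → 0 ≤ u * T * star u ∧ u * T * star u ≤ 1) ∧
  (∀ (d : ℕ) (D : Type) [CStarAlgebra D] (τ : D →ₗ[ℂ] ℂ) (ι : C(Cube d, ℂ) →⋆ₐ[ℂ] D) (v : ℕ → D),
    Sys τ ι v → ∀ (u : D) (h : C(Cube d, ℝ)) (F : C(ℝ, ℝ)), star u * u = 1 → u * star u = 1 →
    τ (cfc (fun x => F x) (u * ι (toC h) * star u)) = ((∫ p, F (h p) : ℝ) : ℂ))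

/-- (E10) The element `T'`.
PROOF. `b r = 1 - f r` for all `r`, `T' = cfc (Gst K b w) T₀` (`0 ≤ T₀ ≤ 1`), in `E` by `S_CFI` (3);
`0 ≤ T' ≤ 1` since `0 ≤ Gst ≤ 1`.  `cfc F T' = cfc (F ∘ Gst K b w) T₀`, so `τ (cfc F T') = ∫₀¹ F (G x) dx`; (E8).
`n2 (cfc ψ T')² = re τ (cfc (ψ²) T')`. -/
def S_TP : Prop :=
  ∀ (D : Type) [CStarAlgebra D] [PartialOrder D] [StarOrderedRing D] (τ : D →ₗ[ℂ] ℂ), IsFTrace τ →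
    ∀ (E : StarSubalgebra ℂ D) (T₀ : D), IsClosed (E : Set D) → T₀ ∈ E → 0 ≤ T₀ → T₀ ≤ 1 →
      (∀ F : ℝ → ℝ, Continuous F → τ (cfc F T₀) = ((∫ x in (0 : ℝ)..1, F x : ℝ) : ℂ)) →
      ∀ (K : ℕ) (f : ℕ → ℝ) (w : ℝ), 1 ≤ K → 0 < w → Antitone f → (∀ r, 0 ≤ f r ∧ f r ≤ 1) →
      ∃ T' ∈ E, 0 ≤ T' ∧ T' ≤ 1 ∧
        (∀ r, r < K - 1 → 1 - w ≤ (τ (cfc (Fm K r) T' + cfc (Fp K r) T')).re ∧
          |(τ (cfc (Fp K r) T')).re - f r| ≤ w) ∧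
        n2 τ (cfc (psi K) T') ^ 2 ≤ 4 * (K : ℝ) * w

/-- (E11) Thresholds of `A = u ι(h) u*`.
PROOF. `S_CFI` (6).  If `θ p < 1` then `h p = t_j`, so `Fm (h p) + Fp (h p) = 1`, `psi (h p) = 0`; in any case
`Fm (h p) + Fp (h p) ≥ 1 - θ p` and `psi (h p)² ≤ 4 θ p`.  Antitone in `r`: `S_FR`. -/
def S_TT : Prop :=
  ∀ (d R : ℕ), 1 ≤ R → ∀ (c : Fin (R ^ d) → Cube d) (h θ : C(Cube d, ℝ)) (η : ℝ),
    CellData d R c h θ η →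
    ∀ (D : Type) [CStarAlgebra D] [PartialOrder D] [StarOrderedRing D] (τ : D →ₗ[ℂ] ℂ)
      (ι : C(Cube d, ℂ) →⋆ₐ[ℂ] D) (v : ℕ → D), Sys τ ι v →
      ∀ u : D, star u * u = 1 → u * star u = 1 →
        (∀ r, 1 - η ≤ (τ (cfc (Fm (R ^ d) r) (u * ι (toC h) * star u)
          + cfc (Fp (R ^ d) r) (u * ι (toC h) * star u))).re) ∧
        (∀ r, (τ (cfc (Fp (R ^ d) r) (u * ι (toC h) * star u))).re = ∫ p, Fp (R ^ d) r (h p)) ∧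
        Antitone (fun r => ∫ p, Fp (R ^ d) r (h p)) ∧
        (∀ r, 0 ≤ (∫ p, Fp (R ^ d) r (h p)) ∧ (∫ p, Fp (R ^ d) r (h p)) ≤ 1) ∧
        n2 τ (cfc (psi (R ^ d)) (u * ι (toC h) * star u)) ^ 2 ≤ 4 * η

/-- (E12) ALIGNMENT.
PROOF. `K = R^d`.  For `r < K - 1`: `S_S1` with `c = t_r + 1/(4K)`, `c' = t_{r+1} - 1/(4K)`, `Fm K r`, `Fp K r`,
`ε = κ₁/4` gives `κ_r`; `κ` = minimum of the `κ_r` and `1`.  `η₀ = min κ (κ₁/16)²`, `w` with `w ≤ κ`,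
`4 K w ≤ (κ₁/8)²`.  `T = ι (toC h)`.  `T₀` from `S_HAAR`, `S_UNI` with `E` = closure of the algebra generated by
`v 0, v 1`; `T'` from `S_TP` with `f r = ∫ Fp K r (h p)`.  `Q N = PN ι v (N + 2)`, `S_V` gives `N`, `u`.
`g = v (N+2) * v (N+3)` is mixing over `Q N` (`S_PN`, `S_MIX`), lies in `Q (N+2)`, `‖g‖ ≤ 1`.
`S_S1` applies to `A = u T u*`, `B = T'` (`K = (1/2)(a g b - (a g b)*)` is skew-adjoint of norm `≤ 1` in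
`Q (N+2)`), so `n2 (Fp_r(A) - Fp_r(T')) ≤ κ₁/4`.
`A = t_0 + ∑ (1/K) Fp_r(A) + psi(A)`, the same for `T'`; so `n2 (A - T') ≤ κ₁/4 + 2 √η + √(4 K w) ≤ κ₁`. -/
def S_AG : Prop :=
  ∀ (d R : ℕ), 1 ≤ R → ∀ κ₁ : ℝ, 0 < κ₁ → ∃ η₀ : ℝ, 0 < η₀ ∧
    ∀ (c : Fin (R ^ d) → Cube d) (h θ : C(Cube d, ℝ)) (η : ℝ), η ≤ η₀ → CellData d R c h θ η →
    ∀ (D : Type) [CStarAlgebra D] [PartialOrder D] [StarOrderedRing D] (τ : D →ₗ[ℂ] ℂ)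
      (ι : C(Cube d, ℂ) →⋆ₐ[ℂ] D) (v : ℕ → D), Sys τ ι v →
      ∃ N : ℕ, ∃ u ∈ PN ι v (N + 2), star u * u = 1 ∧ u * star u = 1 ∧
        ∃ T' ∈ PN ι v (N + 2), T' ∈ (StarAlgebra.adjoin ℂ (Set.range v)).topologicalClosure ∧
          0 ≤ T' ∧ T' ≤ 1 ∧ n2 τ (u * ι (toC h) * star u - T') ≤ κ₁

/-- (E13) The evaluation homomorphism.
PROOF. `B` is self-adjoint with spectrum in `[0,1]`.  `cfcHom` for the normal element `B` (or for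
`IsSelfAdjoint`, `ℝ`; or for `ℂ`, `spectrum ℂ B ⊆ ℝ`) composed with `f ↦ (z ↦ f (γ (re z)))`.  Values on real
functions: `cfc (fun z : ℂ => ((f (γ (re z)) : ℝ) : ℂ)) B = cfc (fun x : ℝ => f (γ x)) B`
(`cfc_real_eq_complex`).  Membership as in `S_CFI` (3): `f = re f + i im f`. -/
def S_HOM : Prop :=
  ∀ (d : ℕ) (D : Type) [CStarAlgebra D] [PartialOrder D] [StarOrderedRing D] (B : D)
    (γ : C(ℝ, Cube d)), 0 ≤ B → B ≤ 1 →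
    ∃ ψ : C(Cube d, ℂ) →⋆ₐ[ℂ] D,
      (∀ f : C(Cube d, ℝ), ψ (toC f) = cfc (fun x : ℝ => f (γ x)) B) ∧
      (∀ E : StarSubalgebra ℂ D, IsClosed (E : Set D) → B ∈ E → ∀ f, ψ f ∈ E)

/-- (E14) First stage of the path.
PROOF. `r_t (p) = ((1-t) p m + t (γ (h p)) m)_m`, continuous `Cube d → Cube d` (`t` clamped to `[0,1]`),
`ψ t f = u ι(f ∘ r_t) u*`.  `ψ 1 (toC f) = u ι (toC (f ∘ γ ∘ h)) u* = cfc (f ∘ γ) (u ι(toC h) u*)` (`S_CFI` (1), (2)).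
Lipschitz: `|r_s (p) m - r_t (p) m| = |s - t| |p m - γ (h p) m| ≤ |s - t|`, `S_CFI` (4).
Decomposition: `e m = x_m - γ_m ∘ h`, `e' = max (-1/R) (min (1/R) e)`, `e'' = e - e'`; where `θ p < 1`:
`h p = t_j`, `γ (h p) = c j`, `|e| ≤ 1/R`, `e'' = 0`; always `|e''| ≤ |e| ≤ 1`; so `e''² ≤ θ`.
`ψ t (xc m) - cfc (γ_m) A = (1-t) u ι(e) u*`; `Y = (1-t) u ι(e') u*`, `X = (1-t) u ι(e'') u*`,
`n2 X ² ≤ ∫ e''² ≤ ∫ θ ≤ η`. -/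
def S_ST1 : Prop :=
  ∀ (d R : ℕ), 1 ≤ R → ∀ (c : Fin (R ^ d) → Cube d) (h θ : C(Cube d, ℝ)) (η : ℝ),
    CellData d R c h θ η → ∀ γ : C(ℝ, Cube d), (∀ j : Fin (R ^ d), γ (tj (R ^ d) j) = c j) →
    ∀ (D : Type) [CStarAlgebra D] [PartialOrder D] [StarOrderedRing D] (τ : D →ₗ[ℂ] ℂ)
      (ι : C(Cube d, ℂ) →⋆ₐ[ℂ] D) (v : ℕ → D), Sys τ ι v →
      ∀ (E : StarSubalgebra ℂ D) (u : D), ι.range ≤ E → u ∈ E → star u * u = 1 → u * star u = 1 →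
      ∃ ψ : ℝ → (C(Cube d, ℂ) →⋆ₐ[ℂ] D),
        (∀ t f, ψ t f ∈ E) ∧ (∀ f, ψ 0 f = u * ι f * star u) ∧
        (∀ f : C(Cube d, ℝ), ψ 1 (toC f) = cfc (fun x : ℝ => f (γ x)) (u * ι (toC h) * star u)) ∧
        (∀ s t, 0 ≤ s → s ≤ 1 → 0 ≤ t → t ≤ 1 → ∀ m, ‖ψ s (xc m) - ψ t (xc m)‖ ≤ |s - t|) ∧
        (∀ t, 0 ≤ t → t ≤ 1 → ∀ m, ∃ Y X : D,
          ψ t (xc m) - cfc (fun x : ℝ => ((γ x m : unitInterval) : ℝ)) (u * ι (toC h) * star u) = Y + X ∧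
          ‖Y‖ ≤ 1 / (R : ℝ) ∧ X ∈ E ∧ star X = X ∧ n2 τ X ^ 2 ≤ η)

/-- (E15) Mass.
PROOF. `|g p - g (γ (h p))| ≤ ρ + θ p`: if `θ p < 1` then `γ (h p) = c j`, `|p m - c j m| ≤ 1/R`; if `θ p = 1` use
`0 ≤ g ≤ 1`.  Integrate (probability measure). -/
def S_MASS : Prop :=
  ∀ (d R : ℕ), 1 ≤ R → ∀ (c : Fin (R ^ d) → Cube d) (h θ : C(Cube d, ℝ)) (η : ℝ),
    CellData d R c h θ η → ∀ γ : C(ℝ, Cube d), (∀ j : Fin (R ^ d), γ (tj (R ^ d) j) = c j) →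
    ∀ (g : C(Cube d, ℝ)) (ρ : ℝ), 0 ≤ ρ → (∀ p, 0 ≤ g p ∧ g p ≤ 1) →
      (∀ p q : Cube d, (∀ m, |(p m : ℝ) - (q m : ℝ)| ≤ 1 / (R : ℝ)) → |g p - g q| ≤ ρ) →
      (∫ p, g p) - ρ - η ≤ ∫ p, g (γ (h p))

/-- (E16) The path.
PROOF. `A = u ι(toC h) u*` (`0 ≤ A ≤ 1`), `A_s = (1-s) A + s T'`.  `ψ` from `S_ST1`; `ψ' s` from `S_HOM` for
`B = A_s`.  `φ i = ψ (i/n₁)` for `i ≤ n₁`, `φ i = ψ' ((i - n₁)/n₂)` for `i > n₁`; `φ last = ψ' 1`, so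
`φ last (toC f) = cfc (f ∘ γ) T'`; `φ 0 = ψ 0`.
`near`: for `i < n₁` by `S_ST1`, `1/n₁ ≤ ε`; for `i ≥ n₁` both are `cfc (γ_m)` of `A_s`, `A_{s'}`
(`ψ 1 (xc m) = cfc (γ_m) A_0`), `‖A_s - A_{s'}‖ = |s - s'| ‖A - T'‖ ≤ 1/n₂` (`‖A - T'‖ ≤ 1`: `-1 ≤ A - T' ≤ 1`).
`dec`: `i ≤ n₁`: `ψ t (xc m) - φₙ (xc m) = Y + (X + cfc γ_m A - cfc γ_m T')`, `n2 ≤ √η + δ/2 ≤ δ`;
`i > n₁`: `Y = 0`, `X = cfc γ_m A_s - cfc γ_m T'`, `n2 (A_s - T') = (1-s) n2 (A - T') ≤ κ₁`.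
`mass`: `toC (hl l) * toC (hl l) = toC ((hl l)²)`, `re τ (cfc (hl²∘γ) T') ≥ re τ (cfc (hl²∘γ) A) - ρ =
∫ hl² (γ (h p)) - ρ ≥ ∫ hl² - ρ - η - ρ ≥ ρ` (`S_CFI` (6), `S_MASS`). -/
def S_PATH : Prop :=
  ∀ (d R L n₁ n₂ : ℕ) (ε ρ δ κ₁ η : ℝ) (c : Fin (R ^ d) → Cube d) (h θ : C(Cube d, ℝ))
    (γ : C(ℝ, Cube d)) (hl : Fin L → C(Cube d, ℝ)) (z : Fin L → Cube d),
    1 ≤ R → 1 / (R : ℝ) ≤ ε → 1 ≤ n₁ → 1 / (n₁ : ℝ) ≤ ε → 1 ≤ n₂ → 0 < ρ → 0 < δ → 0 ≤ η →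
    Real.sqrt η ≤ δ / 2 → η ≤ ρ → CellData d R c h θ η →
    (∀ j : Fin (R ^ d), γ (tj (R ^ d) j) = c j) →
    (∀ l p, 0 ≤ hl l p) → (∀ p, ∑ l, (hl l p) ^ 2 = 1) →
    (∀ l m p, |(p m : ℝ) - (z l m : ℝ)| * hl l p ≤ ε * hl l p) →
    (∀ l, 4 * ρ ≤ ∫ p, (hl l p) ^ 2) →
    (∀ l (p q : Cube d), (∀ m, |(p m : ℝ) - (q m : ℝ)| ≤ 1 / (R : ℝ)) →
      |(hl l p) ^ 2 - (hl l q) ^ 2| ≤ ρ) →
    ∀ (D : Type) [CStarAlgebra D] [PartialOrder D] [StarOrderedRing D] (τ : D →ₗ[ℂ] ℂ)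
      (ι : C(Cube d, ℂ) →⋆ₐ[ℂ] D) (v : ℕ → D), Sys τ ι v →
      ∀ (E : StarSubalgebra ℂ D) (u T' : D), IsClosed (E : Set D) → ι.range ≤ E → u ∈ E →
      star u * u = 1 → u * star u = 1 → T' ∈ E → 0 ≤ T' → T' ≤ 1 →
      (∀ m (B B' : D), 0 ≤ B → B ≤ 1 → 0 ≤ B' → B' ≤ 1 → ‖B - B'‖ ≤ 1 / (n₂ : ℝ) →
        ‖cfc (fun x : ℝ => ((γ x m : unitInterval) : ℝ)) B
          - cfc (fun x : ℝ => ((γ x m : unitInterval) : ℝ)) B'‖ ≤ ε) →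
      (∀ m (B : D), 0 ≤ B → B ≤ 1 → n2 τ (B - T') ≤ κ₁ →
        n2 τ (cfc (fun x : ℝ => ((γ x m : unitInterval) : ℝ)) B
          - cfc (fun x : ℝ => ((γ x m : unitInterval) : ℝ)) T') ≤ δ / 2) →
      (∀ l (B : D), 0 ≤ B → B ≤ 1 → n2 τ (B - T') ≤ κ₁ →
        n2 τ (cfc (fun x : ℝ => (hl l (γ x)) ^ 2) B - cfc (fun x : ℝ => (hl l (γ x)) ^ 2) T') ≤ ρ) →
      n2 τ (u * ι (toC h) * star u - T') ≤ κ₁ →
      ∃ (φ : Fin (n₁ + n₂ + 1) → C(Cube d, ℂ) →⋆ₐ[ℂ] D) (Y X : Fin (n₁ + n₂ + 1) → Fin d → D),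
        GData τ E φ hl z Y X ρ ε δ ∧ (∀ f, φ 0 f = u * ι f * star u) ∧
        (∀ m, φ (Fin.last (n₁ + n₂)) (xc m) = cfc (fun x : ℝ => ((γ x m : unitInterval) : ℝ)) T')

/-- (E17) THE MAIN CLAIM (STAR).
PROOF. `C` from `S_GSL`, `ε' = min 1 (ε / C)`.  `hl, z, ρ` from `S_HAT` (`ε'`).  `R ≥ 1` with `1/R ≤ ε'` and the
uniform continuity of the `(hl l)²` (compactness) for tolerance `ρ`.  `c` from `S_CELL`, `γ` from `S_GAM`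
(`K = R^d`).  `n₁ ≥ 1/ε'`; `n₂` from `S_CTN` (norm) for the functions `γ_m`.  `δ` from `S_GSL` for `n = n₁ + n₂`.
`κ₁` from `S_CTN` (2-norm) for the `γ_m` (tolerance `δ/2`) and the `(hl l)² ∘ γ` (tolerance `ρ`).  `η₀` from `S_AG`;
`η = min η₀ (min ρ (δ²/4))`; `h, θ` from `S_CELL`.  `S_AG` gives `N, u, T'`; `E = PN ι v (N + 2)`; `S_PATH`; `S_PN`:
`SymSys τ E (fun j => v (N + 2 + j))`; `S_GSL` gives `u'` with `‖u' φ 0 (xc m) u'* - φ last (xc m)‖ ≤ C ε' ≤ ε`.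
`w = u' * u`, `c m = cfc (γ_m) T'`; `E ≤ GM ι v 0`, `(WA E _).topologicalClosure ≤ GM ι v 0`; `S_CFI` (3). -/
def S_STAR : Prop :=
  ∀ (d : ℕ) (D : Type) [CStarAlgebra D] (τ : D →ₗ[ℂ] ℂ)
    (ι : C(Fin d → unitInterval, ℂ) →⋆ₐ[ℂ] D) (v : ℕ → D), Sys τ ι v →
    ∀ ε : ℝ, 0 < ε → ∃ w ∈ GM ι v 0, star w * w = 1 ∧ w * star w = 1 ∧
      ∃ c : Fin d → D, (∀ m, c m ∈ (StarAlgebra.adjoin ℂ (Set.range v)).topologicalClosure) ∧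
        ∀ m, ‖w * ι (xc m) * star w - c m‖ ≤ ε

end Pool.Agent.FT
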