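import Pool.Agent.Lib.FT.SpecE
import Pool.Agent.Lib.FT.Goal

/-!
# C44, block F: intertwining

Modules: file `Pool/Agent/Lib/FT/F/Xxx.lean`, `import Pool.Agent.Lib.FT.SpecF`, in
`namespace Pool.Agent.FT`: `theorem pXxx (hyps : S_...) : S_Xxx := ...`.
-/

set_option autoImplicit false

open MeasureTheory

noncomputable section

namespace Pool.Agent.FT

/-- (F1) Stone-Weierstrass.
PROOF. `E.comap ι` is a *-subalgebra of `C(Cube d, ℂ)`, closed (`ι` is continuous: *-homomorphisms are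
contractive), contains the coordinate functions, which separate points;
`ContinuousMap.starSubalgebra_topologicalClosure_eq_top_of_separatesPoints`. -/
def S_SW : Prop :=
  ∀ (d : ℕ) (D : Type) [CStarAlgebra D] (ι : C(Cube d, ℂ) →⋆ₐ[ℂ] D) (E : StarSubalgebra ℂ D),
    IsClosed (E : Set D) → (∀ m, ι (xc m) ∈ E) → ι.range ≤ E

/-- (F2) Approximation by polynomials in the generators.
PROOF. The set of all `g` with the stated property (for all `ε`) is a closed *-subalgebra of `D`: sums, scalars,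
`1`, `star` are clear; products: `‖g g' - e e'‖ ≤ ‖g‖ ‖g' - e'‖ + ‖g - e‖ (‖g'‖ + 1)`; closed: triangle
inequality.  It contains `ι (xc m)` (`e = y m`) and `v k` (`M = k + 1`, `e = v k`), so `ι.range` by `S_SW`, and then
everything. -/
def S_APX : Prop :=
  ∀ (d : ℕ) (D : Type) [CStarAlgebra D] (ι : C(Cube d, ℂ) →⋆ₐ[ℂ] D) (v : ℕ → D),
    (ι.range ⊔ StarAlgebra.adjoin ℂ (Set.range v)).topologicalClosure = ⊤ →
    ∀ (g : D) (ε : ℝ), 0 < ε → ∃ (M : ℕ) (δ : ℝ), 0 < δ ∧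
      ∀ y : Fin d → D, (∀ m, ‖ι (xc m) - y m‖ ≤ δ) →
        ∀ E : StarSubalgebra ℂ D, (∀ m, y m ∈ E) → (∀ k, k < M → v k ∈ E) → ∃ e ∈ E, ‖g - e‖ ≤ ε

/-- (F3) Tails of systems.
PROOF. Freeness: apply `Sys.free` to the list with indices mapped by `none ↦ none`, `some k ↦ some (M + k)`
(injective).  The sets of generators in `GM` coincide. -/
def S_TAIL : Prop :=
  ∀ (d : ℕ) (D : Type) [CStarAlgebra D] (τ : D →ₗ[ℂ] ℂ)
    (ι : C(Cube d, ℂ) →⋆ₐ[ℂ] D) (v : ℕ → D), Sys τ ι v → ∀ M : ℕ,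
      Sys τ ι (fun k => v (M + k)) ∧ GM ι (fun k => v (M + k)) 0 ≤ GM ι v M

/-- (F4) Directed union.
PROOF. `y' ∈ adjoin (range x)` with `‖y - y'‖ ≤ ε`; by `StarAlgebra.adjoin_induction` every element of
`adjoin (range x)` lies in the subalgebra generated by finitely many `x k` (monotone in `N`). -/
def S_DIR : Prop :=
  ∀ (D : Type) [CStarAlgebra D] (x : ℕ → D) (y : D),
    y ∈ (StarAlgebra.adjoin ℂ (Set.range x)).topologicalClosure → ∀ ε : ℝ, 0 < ε →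
      ∃ N : ℕ, ∃ e ∈ StarAlgebra.adjoin ℂ {a : D | ∃ k, k < N ∧ a = x k}, ‖y - e‖ ≤ ε

/-- (F5) The conjugated system generates.
PROOF. `H` = the closed *-algebra generated by `ι'` and the `v' k`.  `x ↦ w* x w` maps the generators `ι f`, `v k`
(`M ≤ k`) of `GM ι v M` into `H`, so it maps `GM ι v M` into `H` (closed); and
`GM ι v M = w* (w (GM ι v M) w*) w ⊆ w* (GM ι v M) w` since `w ∈ GM ι v M`.  So `ι.range ≤ H`, `v k ∈ H` for
`M ≤ k`, and `v k = v' k ∈ H` for `k < M`. -/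
def S_GEN : Prop :=
  ∀ (d : ℕ) (D : Type) [CStarAlgebra D] (ι ι' : C(Cube d, ℂ) →⋆ₐ[ℂ] D) (v v' : ℕ → D) (M : ℕ) (w : D),
    w ∈ GM ι v M → star w * w = 1 → w * star w = 1 → (∀ f, ι' f = star w * ι f * w) →
    (∀ k, v' k = if k < M then v k else star w * v k * w) →
    (ι.range ⊔ StarAlgebra.adjoin ℂ (Set.range v)).topologicalClosure = ⊤ →
    (ι'.range ⊔ StarAlgebra.adjoin ℂ (Set.range v')).topologicalClosure = ⊤

/-- (F6) STEP.
PROOF. `S_APX` for every `g ∈ F` and `ε/2`; `M` = maximum of `N` and the `M_g`, `δ` = minimum of the `δ_g` (and `1`).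
`S_TAIL` and `S_STAR` (for `ι`, `v (M + ·)`, `δ`): `w ∈ GM ι v M`, `c m` in the closure of the algebra generated by
the `v (M + k)`.  `S_CONJ`: `ι'`, `v'`; generating by `S_GEN`.  `y m = w* c m w`: `‖ι (xc m) - y m‖ =
‖w ι (xc m) w* - c m‖ ≤ δ`, and `y m ∈ E` = closure of the algebra generated by the `v' k`
(`w* v (M+k) w = v' (M+k)`; conjugation is a continuous *-homomorphism).  `v k = v' k ∈ E` for `k < M`.  So every
`g ∈ F` is within `ε/2` of `E`; `S_DIR`, `N'` = maximum over `F`. -/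
def S_STP : Prop :=
  ∀ (d : ℕ) (D : Type) [CStarAlgebra D] (τ : D →ₗ[ℂ] ℂ)
    (ι : C(Cube d, ℂ) →⋆ₐ[ℂ] D) (v : ℕ → D), Sys τ ι v →
    (ι.range ⊔ StarAlgebra.adjoin ℂ (Set.range v)).topologicalClosure = ⊤ →
    ∀ (F : Finset D) (ε : ℝ) (N : ℕ), 0 < ε →
      ∃ (ι' : C(Cube d, ℂ) →⋆ₐ[ℂ] D) (v' : ℕ → D), Sys τ ι' v' ∧
        (ι'.range ⊔ StarAlgebra.adjoin ℂ (Set.range v')).topologicalClosure = ⊤ ∧
        (∀ k, k < N → v' k = v k) ∧
        ∃ N' : ℕ, ∀ g ∈ F, ∃ e ∈ StarAlgebra.adjoin ℂ {a : D | ∃ k, k < N' ∧ a = v' k}, ‖g - e‖ ≤ ε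

/-- (F7) ITERATION.
PROOF. States `(ι_n, v_n, N_n)` (a subtype: `Sys`, generating), `(ι_0, v_0, N_0) = (ι, v, 0)`; `S_STP` with
`F_n = {ι (xc m)} ∪ {v k : k ≤ n}` (the original ones), `ε = 1/(n+1)`, `N = N_n` gives `(ι_{n+1}, v_{n+1})` and `N'_n`;
`N_{n+1} = max N'_n (N_n + 1)`.  So `n ≤ N_n`, `N_n` is monotone and `v_m k = v_n k` for `k < N_n`, `m ≥ n`.
`x k = v_{k+1} k`; then `v_n k = x k` for `k < N_n`.  Freeness of the `adjoin {x k}`: a list has finitely many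
indices, take `n` larger than all of them, and use `Sys.free` of the system `n`.
`H` = closure of the algebra generated by the `x k`: for `g ∈ F_n` the element `e ∈ adjoin {v_{n+1} k : k < N'_n}` is
in `H`, so `ι (xc m)`, `v k` are in `H` (let `n → ∞`); `S_SW`. -/
def S_ITR : Prop :=
  ∀ (d : ℕ) (D : Type) [CStarAlgebra D] (τ : D →ₗ[ℂ] ℂ)
    (ι : C(Cube d, ℂ) →⋆ₐ[ℂ] D) (v : ℕ → D), Sys τ ι v →
    (ι.range ⊔ StarAlgebra.adjoin ℂ (Set.range v)).topologicalClosure = ⊤ →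
    ∃ x : ℕ → D, (∀ k, star (x k) = x k) ∧ (∀ k, x k * x k = 1) ∧ (∀ k, τ (x k) = 0) ∧
      IsFree τ (fun k => StarAlgebra.adjoin ℂ {x k}) ∧
      (StarAlgebra.adjoin ℂ (Set.range x)).topologicalClosure = ⊤

/-- Assembly of the goal. -/
theorem goal_of (hSYS : S_SYS) (hITR : S_ITR) (hMOM : S_MOM) (hISO : S_ISO) (d : ℕ) : Goal d := by
  intro B _ D _ τ e φ ι κ h1 h2 h3 h4 h5
  obtain ⟨hτ, ⟨b, hb1, hb2, hb3, hb4, hb5⟩, ⟨v, hv, hg⟩⟩ := hSYS d B D τ e φ ι κ h1 h2 h3 h4 h5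
  obtain ⟨x, hx1, hx2, hx3, hx4, hx5⟩ := hITR d D φ ι v hv hg
  exact hISO B D τ φ b x hτ hv.tr hb1 hx1 hb5 hx5
    (hMOM B D τ φ b x hτ.state.1 hv.tr.state.1 hb2 hx2 hb3 hx3 hb4 hx4)

end Pool.Agent.FT
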